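import Mathlib
import Pool.Agent.W206.Tau.Gen

set_option autoImplicit false

/-! Presentation of finitely generated rings by sums and products. -/

namespace W206.ZF

open MvPolynomial W206.Tau

/-- the three kinds of equations -/
def IsGate {n : ℕ} (q : MvPolynomial (Fin n) ℤ) : Prop :=
  ∃ a b c : Fin n, q = X a + X b - X c ∨ q = X a * X b - X c ∨ q = X a - 1

/-- the starting set -/
def Sx (N : ℕ) : Set (MvPolynomial (Fin N) ℤ) := {x | x = 1 ∨ ∃ i, x = X i}

lemma one_mem_Sx (N : ℕ) : (1 : MvPolynomial (Fin N) ℤ) ∈ Sx N := Or.inl rfl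

lemma gen_int {N : ℕ} (a : ℤ) : ∃ n, Gen n (Sx N) {C a} := by
  induction a using Int.induction_on with
  | zero =>
    refine ⟨1, gen_mono 1 le_rfl ?_ (gen_one (one_mem_Sx N) (one_mem_Sx N)
      (Or.inr (Or.inl rfl) : Op (1 : MvPolynomial (Fin N) ℤ) 1 (1 - 1)))⟩
    rintro x rfl
    left; simp
  | succ i ih =>
    obtain ⟨n, hn⟩ := ih
    refine ⟨n + 1, gen_mono _ le_rfl ?_ (gen_add hn (a := C (i : ℤ)) (b := 1)
      (c := C ((i : ℤ) + 1)) (Or.inr rfl) (Or.inl (one_mem_Sx N)) (Or.inl (by simp)))⟩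
    rintro x rfl
    exact Or.inl rfl
  | pred i ih =>
    obtain ⟨n, hn⟩ := ih
    refine ⟨n + 1, gen_mono _ le_rfl ?_ (gen_add hn (a := C (-(i : ℤ))) (b := 1)
      (c := C (-(i : ℤ) - 1)) (Or.inr rfl) (Or.inl (one_mem_Sx N)) (Or.inr (Or.inl (by simp))))⟩
    rintro x rfl
    exact Or.inl rfl

lemma gen_poly {N : ℕ} (f : MvPolynomial (Fin N) ℤ) : ∃ n, Gen n (Sx N) {f} := by
  induction f using MvPolynomial.induction_on with
  | C a => exact gen_int a
  | add p q hp hq =>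
    obtain ⟨n, hn⟩ := hp
    obtain ⟨m, hm⟩ := hq
    have h1 := gen_trans n hn (gen_mono m (S' := Sx N ∪ {p}) (fun x hx => Or.inl hx) le_rfl
      (gen_keep m hm))
    have h2 := gen_trans n (gen_keep n hn) (gen_mono m (S' := Sx N ∪ (Sx N ∪ {p}))
      (fun x hx => Or.inl hx) le_rfl hm)
    have h3 : Gen (n + m) (Sx N) {p, q} := by
      have h4 := gen_trans n hn (gen_mono m (S' := Sx N ∪ {p}) (T' := (Sx N ∪ {p}) ∪ {q})
        le_rfl le_rfl (gen_keep m (gen_mono m (fun x hx => Or.inl hx) le_rfl hm)))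
      refine gen_mono _ le_rfl ?_ h4
      rintro x (rfl | rfl)
      · exact Or.inl (Or.inr rfl)
      · exact Or.inr rfl
    refine ⟨n + m + 1, gen_mono _ le_rfl ?_ (gen_add h3 (a := p) (b := q) (c := p + q)
      (Or.inr (Or.inl rfl)) (Or.inr (Or.inr rfl)) (Or.inl rfl))⟩
    rintro x rfl
    exact Or.inl rfl
  | mul_X p i hp =>
    obtain ⟨n, hn⟩ := hp
    refine ⟨n + 1, gen_mono _ le_rfl ?_ (gen_add hn (a := p) (b := X i) (c := p * X i)
      (Or.inr rfl) (Or.inl (Or.inr ⟨i, rfl⟩)) (Or.inr (Or.inr rfl)))⟩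
    rintro x rfl
    exact Or.inl rfl

lemma gen_finset {N : ℕ} (T : Finset (MvPolynomial (Fin N) ℤ)) :
    ∃ n, Gen n (Sx N) (T : Set (MvPolynomial (Fin N) ℤ)) := by
  classical
  induction T using Finset.induction_on with
  | empty => exact ⟨0, by simp [Gen]⟩
  | insert f T _ ih =>
    obtain ⟨n, hn⟩ := ih
    obtain ⟨m, hm⟩ := gen_poly f
    refine ⟨n + m, ?_⟩
    have h4 := gen_trans n hn (gen_mono m (S' := Sx N ∪ T) (T' := (Sx N ∪ T) ∪ {f})
        le_rfl le_rfl (gen_keep m (gen_mono m (fun x hx => Or.inl hx) le_rfl hm)))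
    refine gen_mono _ le_rfl ?_ h4
    intro x hx
    rw [Finset.coe_insert] at hx
    rcases hx with rfl | hx
    · exact Or.inr rfl
    · exact Or.inl (Or.inr hx)

/-- `q` is a gate which computes the value number `i` -/
def GateOK {N n : ℕ} (hNn : N < n) (p : ℕ → MvPolynomial (Fin N) ℤ) (i : Fin n)
    (q : MvPolynomial (Fin n) ℤ) : Prop :=
  IsGate q ∧
  (∀ (K : Type) [Field K] (x : Fin N → K), aeval (fun i : Fin n => aeval x (p i)) q = 0) ∧
  (∀ (K : Type) [Field K] (z : Fin n → K), aeval z q = 0 → N ≤ (i : ℕ) →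
    (∀ j : Fin n, (j : ℕ) < i → z j = aeval (fun l : Fin N => z (Fin.castLE hNn.le l)) (p j)) →
    z i = aeval (fun l : Fin N => z (Fin.castLE hNn.le l)) (p i))

section gates

variable {N n : ℕ} (hNn : N < n) {p : ℕ → MvPolynomial (Fin N) ℤ}

lemma ev1 {K : Type} [Field K] (z : Fin n → K) (a b c : Fin n) :
    aeval z (X a + X b - X c : MvPolynomial (Fin n) ℤ) = z a + z b - z c := by
  rw [map_sub, map_add, aeval_X, aeval_X, aeval_X]

lemma ev2 {K : Type} [Field K] (z : Fin n → K) (a b c : Fin n) :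
    aeval z (X a * X b - X c : MvPolynomial (Fin n) ℤ) = z a * z b - z c := by
  rw [map_sub, map_mul, aeval_X, aeval_X, aeval_X]

lemma ev3 {K : Type} [Field K] (z : Fin n → K) (a : Fin n) :
    aeval z (X a - 1 : MvPolynomial (Fin n) ℤ) = z a - 1 := by
  rw [map_sub, map_one, aeval_X]

lemma gateOK_one (hp1 : p N = 1) (i : Fin n) (hi : (i : ℕ) ≤ N) :
    GateOK hNn p i (X ⟨N, hNn⟩ - 1) := by
  refine ⟨⟨⟨N, hNn⟩, ⟨N, hNn⟩, ⟨N, hNn⟩, Or.inr (Or.inr rfl)⟩, ?_, ?_⟩
  · intro K _ x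
    rw [ev3]
    change aeval x (p N) - 1 = 0
    rw [hp1, map_one, sub_self]
  · intro K _ z hz hN _
    rw [ev3] at hz
    have h2 : i = ⟨N, hNn⟩ := Fin.ext (le_antisymm hi hN)
    rw [h2, sub_eq_zero.mp hz]
    change 1 = aeval _ (p N)
    rw [hp1, map_one]

lemma gateOK_add (i j k : Fin n) (hj : (j : ℕ) < i) (hk : (k : ℕ) < i)
    (h : p i = p j + p k) : GateOK hNn p i (X j + X k - X i) := by
  refine ⟨⟨j, k, i, Or.inl rfl⟩, ?_, ?_⟩
  · intro K _ x
    rw [ev1, h, map_add, sub_self]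
  · intro K _ z hz _ hlt
    rw [ev1] at hz
    rw [h, map_add, ← hlt j hj, ← hlt k hk]
    exact (sub_eq_zero.mp hz).symm

lemma gateOK_sub (i j k : Fin n) (hj : (j : ℕ) < i) (hk : (k : ℕ) < i)
    (h : p i = p j - p k) : GateOK hNn p i (X k + X i - X j) := by
  refine ⟨⟨k, i, j, Or.inl rfl⟩, ?_, ?_⟩
  · intro K _ x
    rw [ev1, h, map_sub]; ring
  · intro K _ z hz _ hlt
    rw [ev1] at hz
    rw [h, map_sub, ← hlt j hj, ← hlt k hk]
    linear_combination hz

lemma gateOK_mul (i j k : Fin n) (hj : (j : ℕ) < i) (hk : (k : ℕ) < i)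
    (h : p i = p j * p k) : GateOK hNn p i (X j * X k - X i) := by
  refine ⟨⟨j, k, i, Or.inr (Or.inl rfl)⟩, ?_, ?_⟩
  · intro K _ x
    rw [ev2, h, map_mul, sub_self]
  · intro K _ z hz _ hlt
    rw [ev2] at hz
    rw [h, map_mul, ← hlt j hj, ← hlt k hk]
    exact (sub_eq_zero.mp hz).symm

lemma exists_gateOK (hp1 : p N = 1) (h : ∀ i, N + 1 ≤ i → i < n →
    ∃ j k, j < i ∧ k < i ∧ Op (p j) (p k) (p i)) (i : Fin n) : ∃ q, GateOK hNn p i q := by
  rcases Nat.lt_or_ge N i with hi | hi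
  · obtain ⟨j, k, hj, hk, hop⟩ := h i hi i.2
    have hjn : j < n := hj.trans i.2
    have hkn : k < n := hk.trans i.2
    rcases hop with h | h | h
    · exact ⟨_, gateOK_add hNn i ⟨j, hjn⟩ ⟨k, hkn⟩ hj hk h⟩
    · exact ⟨_, gateOK_sub hNn i ⟨j, hjn⟩ ⟨k, hkn⟩ hj hk h⟩
    · exact ⟨_, gateOK_mul hNn i ⟨j, hjn⟩ ⟨k, hkn⟩ hj hk h⟩
  · exact ⟨_, gateOK_one hNn hp1 i hi⟩

end gates

/-- systems of polynomial equations are equivalent to systems of sums and products -/
theorem exists_gates {N : ℕ} (T : Finset (MvPolynomial (Fin N) ℤ)) :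
    ∃ (n r : ℕ) (q : Fin (r + 1) → MvPolynomial (Fin n) ℤ), (∀ j, IsGate (q j)) ∧
      ∀ (K : Type) [Field K], Nat.card {x : Fin N → K // ∀ f ∈ T, aeval x f = 0} =
        Nat.card {z : Fin n → K // ∀ j, aeval z (q j) = 0} := by
  classical
  obtain ⟨m, hm⟩ := gen_finset T
  obtain ⟨p, hp1, hp2, hp3⟩ := fun_of_gen m (N + 1)
    (fun i => if h : i < N then X ⟨i, h⟩ else 1) (Sx N) T (by
    rintro x (rfl | ⟨i, rfl⟩)
    · exact ⟨N, by omega, by simp⟩
    · exact ⟨i, by have := i.2; omega, by simp⟩) hm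
  have hpX : ∀ i (h : i < N), p i = X ⟨i, h⟩ := fun i h => by
    rw [hp1 i (by omega)]; simp [h]
  have hp1' : p N = 1 := by rw [hp1 N (by omega)]; simp
  clear hp1
  obtain ⟨n, hn⟩ : ∃ n, n = N + 1 + m := ⟨_, rfl⟩
  rw [← hn] at hp2 hp3
  have hNn : N < n := by omega
  have hgate := exists_gateOK hNn hp1' hp2
  choose q₁ hq₁ using hgate
  -- the constraints
  have hcon : ∀ f : T, ∃ i : Fin n, p i = f.1 := by
    intro f
    obtain ⟨i, hi, hpi⟩ := hp3 f.2
    exact ⟨⟨i, hi⟩, hpi⟩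
  choose ic hic using hcon
  -- all equations
  obtain ⟨r, e⟩ : ∃ r : ℕ, Nonempty (Fin (r + 1) ≃ Fin n ⊕ T) := by
    have h1 : Fintype.card (Fin n ⊕ T) ≠ 0 := by
      rw [Fintype.card_sum, Fintype.card_fin]; omega
    obtain ⟨r, hr⟩ := Nat.exists_eq_succ_of_ne_zero h1
    exact ⟨r, ⟨(Fintype.equivFinOfCardEq hr).symm⟩⟩
  obtain ⟨e⟩ := e
  let q' : Fin n ⊕ T → MvPolynomial (Fin n) ℤ :=
    Sum.elim q₁ (fun f => X (ic f) + X (ic f) - X (ic f))
  have hzero : ∀ (K : Type) [Field K] (z : Fin n → K), (∀ j, aeval z (q' (e j)) = 0) ↔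
      ((∀ i, aeval z (q₁ i) = 0) ∧ ∀ f : T, z (ic f) = 0) := by
    intro K _ z
    constructor
    · intro h
      refine ⟨fun i => ?_, fun f => ?_⟩
      · have h1 := h (e.symm (Sum.inl i))
        rw [Equiv.apply_symm_apply] at h1
        exact h1
      · have h1 := h (e.symm (Sum.inr f))
        rw [Equiv.apply_symm_apply] at h1
        change aeval z (X (ic f) + X (ic f) - X (ic f) : MvPolynomial (Fin n) ℤ) = 0 at h1
        rw [ev1] at h1
        linear_combination h1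
    · rintro ⟨h1, h2⟩ j
      rcases e j with i | f
      · exact h1 i
      · change aeval z (X (ic f) + X (ic f) - X (ic f) : MvPolynomial (Fin n) ℤ) = 0
        rw [ev1, h2 f]; ring
  refine ⟨n, r, fun j => q' (e j), ?_, ?_⟩
  · intro j
    change IsGate (q' (e j))
    rcases e j with i | f
    · exact (hq₁ i).1
    · exact ⟨_, _, _, Or.inl rfl⟩
  · intro K _
    have hval : ∀ z : Fin n → K, (∀ i, aeval z (q₁ i) = 0) → ∀ (i : ℕ) (hi : i < n),
        z ⟨i, hi⟩ = aeval (fun l : Fin N => z (Fin.castLE hNn.le l)) (p i) := by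
      intro z hz i
      induction i using Nat.strong_induction_on with
      | _ i ih =>
        intro hi
        rcases Nat.lt_or_ge i N with h | h
        · rw [hpX i h, aeval_X]; rfl
        · exact (hq₁ ⟨i, hi⟩).2.2 K z (hz _) h (fun j hj => ih j hj j.2)
    refine Nat.card_congr ⟨fun x => ⟨fun i => aeval x.1 (p i), ?_⟩,
      fun z => ⟨fun l => z.1 (Fin.castLE hNn.le l), ?_⟩, ?_, ?_⟩
    · rw [hzero]
      refine ⟨fun i => (hq₁ i).2.1 K x.1, fun f => ?_⟩
      rw [hic f]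
      exact x.2 f.1 f.2
    · intro f hf
      have h1 := (hzero K z.1).mp z.2
      have h2 := hval z.1 h1.1 (ic ⟨f, hf⟩) (ic ⟨f, hf⟩).2
      rw [hic ⟨f, hf⟩] at h2
      exact h2.symm.trans (h1.2 ⟨f, hf⟩)
    · intro x
      apply Subtype.ext
      funext l
      change aeval x.1 (p l) = x.1 l
      rw [hpX l l.2, aeval_X]
    · intro z
      apply Subtype.ext
      funext i
      exact (hval z.1 ((hzero K z.1).mp z.2).1 i i.2).symm

/-- homomorphisms of a finitely generated ring to finite fields are the solutions of a system of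
sums and products -/
theorem exists_gates_ring (B : Type*) [CommRing B] [Algebra.FiniteType ℤ B] :
    ∃ (n r : ℕ) (q : Fin (r + 1) → MvPolynomial (Fin n) ℤ), (∀ j, IsGate (q j)) ∧
      ∀ (K : Type) [Field K], Nat.card (B →+* K) =
        Nat.card {z : Fin n → K // ∀ j, aeval z (q j) = 0} := by
  classical
  obtain ⟨N, f, hf⟩ := Algebra.FiniteType.iff_quotient_mvPolynomial''.mp
    (inferInstance : Algebra.FiniteType ℤ B)
  obtain ⟨T, hT⟩ : (RingHom.ker f.toRingHom).FG := IsNoetherian.noetherian _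
  obtain ⟨n, r, q, hq, hcard⟩ := exists_gates T
  refine ⟨n, r, q, hq, fun K _ => ?_⟩
  rw [← hcard K]
  have hval : ∀ (φ : B →+* K) (g : MvPolynomial (Fin N) ℤ),
      aeval (fun i => φ (f (X i))) g = φ (f g) := by
    intro φ g
    have h1 : (aeval (fun i => φ (f (X i))) : MvPolynomial (Fin N) ℤ →ₐ[ℤ] K).toRingHom =
        φ.comp f.toRingHom := by
      apply MvPolynomial.ringHom_ext
      · intro r
        simp
      · intro i
        simp
    exact congrArg (fun g' : MvPolynomial (Fin N) ℤ →+* K => g' g) h1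
  refine Nat.card_congr (Equiv.ofBijective (fun φ => ⟨fun i => φ (f (X i)), ?_⟩) ⟨?_, ?_⟩)
  · intro g hg
    rw [hval]
    have : g ∈ RingHom.ker f.toRingHom := by
      rw [← hT]; exact Ideal.subset_span hg
    have h2 : f g = 0 := this
    rw [h2, map_zero]
  · intro φ ψ h
    apply RingHom.ext
    intro b
    obtain ⟨g, rfl⟩ := hf b
    rw [← hval, ← hval]
    have h1 : (fun i => φ (f (X i))) = fun i => ψ (f (X i)) := congrArg Subtype.val h
    rw [h1]
  · rintro ⟨x, hx⟩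
    have hker : RingHom.ker f.toRingHom ≤ RingHom.ker
        (aeval x : MvPolynomial (Fin N) ℤ →ₐ[ℤ] K).toRingHom := by
      rw [← hT, Ideal.span_le]
      intro g hg
      exact hx g hg
    let ψ : B →+* K := (Ideal.Quotient.lift (RingHom.ker f.toRingHom)
      (aeval x : MvPolynomial (Fin N) ℤ →ₐ[ℤ] K).toRingHom (fun a ha => RingHom.mem_ker.mp (hker ha))).comp
        (RingHom.quotientKerEquivOfSurjective (f := f.toRingHom) hf).symm.toRingHom
    have hψ : ∀ g, ψ (f g) = aeval x g := by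
      intro g
      have h1 : (RingHom.quotientKerEquivOfSurjective (f := f.toRingHom) hf).symm (f g) =
          Ideal.Quotient.mk _ g := by
        rw [RingEquiv.symm_apply_eq]
        rfl
      change Ideal.Quotient.lift (RingHom.ker f.toRingHom)
        (aeval x : MvPolynomial (Fin N) ℤ →ₐ[ℤ] K).toRingHom (fun a ha => RingHom.mem_ker.mp (hker ha))
        ((RingHom.quotientKerEquivOfSurjective (f := f.toRingHom) hf).symm (f g)) = _
      rw [h1, Ideal.Quotient.lift_mk]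
      rfl
    refine ⟨ψ, ?_⟩
    apply Subtype.ext
    funext i
    change ψ (f (X i)) = x i
    rw [hψ, aeval_X]

end W206.ZF
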