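import Mathlib

set_option autoImplicit false

/-! Embeddings of finite fields, finiteness of residue fields. -/

namespace W206.ZF

open Polynomial

universe u v

instance jacobson_int : IsJacobsonRing ℤ := by
  rw [isJacobsonRing_iff_prime_eq]
  intro P hP
  by_cases h : P = ⊥
  · subst h
    rw [eq_bot_iff]
    intro x hx
    rw [Ideal.mem_jacobson_bot] at hx
    have h1 := hx x
    rw [Int.isUnit_iff] at h1
    rw [Ideal.mem_bot]
    rcases h1 with h1 | h1
    · have : x * x = 0 := by linarith
      exact mul_self_eq_zero.1 this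
    · exfalso
      nlinarith [mul_self_nonneg x]
  · have : P.IsMaximal := IsPrime.to_maximal_ideal h
    exact Ideal.jacobson_eq_self_of_isMaximal

/-- a field which is finitely generated as a `ℤ`-module is finite -/
theorem finite_of_moduleFinite (K : Type u) [Field K] [Module.Finite ℤ K] : Finite K := by
  obtain ⟨p, hp⟩ := CharP.exists K
  rcases Nat.eq_zero_or_pos p with h0 | h0
  · exfalso
    subst h0
    have : CharZero K := CharP.charP_to_charZero K
    have hinj : Function.Injective (algebraMap ℤ K) := by
      intro a b hab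
      simpa using hab
    have hint : Algebra.IsIntegral ℤ K := inferInstance
    exact Int.not_isField (isField_of_isIntegral_of_isField hinj (Field.toIsField K))
  · have : NeZero p := ⟨h0.ne'⟩
    have : Fact p.Prime := ⟨CharP.char_is_prime_or_zero K p |>.resolve_right h0.ne'⟩
    let _ : Algebra (ZMod p) K := ZMod.algebra K p
    have : Module.Finite (ZMod p) K := Module.Finite.of_restrictScalars_finite ℤ (ZMod p) K
    exact Module.finite_of_finite (ZMod p)

lemma charP_of_card {K : Type v} [Field K] [Finite K] {p k : ℕ} (hp : p.Prime)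
    (hK : Nat.card K ∣ p ^ k) : CharP K p := by
  have := Fintype.ofFinite K
  obtain ⟨p', hc⟩ := CharP.exists K
  obtain ⟨n, hp', hn⟩ := FiniteField.card K p'
  rw [Nat.card_eq_fintype_card, hn] at hK
  have h1 : p' ∣ p ^ k := (dvd_pow_self p' n.ne_zero).trans hK
  have h2 : p' = p := (Nat.prime_dvd_prime_iff_eq hp' hp).mp (hp'.dvd_of_dvd_pow h1)
  exact h2 ▸ hc

/-- number of embeddings of a finite field in another -/
theorem card_hom {E : Type u} {K : Type v} [Field E] [Field K] [Finite E] [Finite K] {p k j : ℕ}
    [hp : Fact p.Prime] (hK : Nat.card K = p ^ k) (hE : Nat.card E ^ (j + 1) = Nat.card K) :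
    Nat.card (E →+* K) * (j + 1) = k := by
  classical
  have := Fintype.ofFinite E
  have := Fintype.ofFinite K
  have hpp := hp.out
  have hcK : CharP K p := charP_of_card hpp (by rw [hK])
  have hcE : CharP E p := charP_of_card (k := k) hpp (by
    rw [← hK, ← hE]; exact dvd_pow_self _ (Nat.succ_ne_zero j))
  let _ : Algebra (ZMod p) K := ZMod.algebra K p
  let _ : Algebra (ZMod p) E := ZMod.algebra E p
  have hfin : Module.Finite (ZMod p) E := Module.Finite.of_finite
  have h1 : Nat.card (E →ₐ[ZMod p] K) = Module.finrank (ZMod p) E := by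
    apply AlgHom.natCard_of_splits
    intro x
    have h2 := FiniteField.splits_X_pow_nat_card_sub_X (K := K) p
    refine h2.of_dvd ?_ ?_
    · rw [Polynomial.map_ne_zero_iff (algebraMap (ZMod p) K).injective]
      exact FiniteField.X_pow_card_sub_X_ne_zero (ZMod p) (by
        rw [← hE]
        exact Nat.one_lt_pow (Nat.succ_ne_zero j) (Finite.one_lt_card))
    · apply Polynomial.map_dvd
      apply minpoly.dvd
      rw [map_sub, map_pow, aeval_X, ← hE, Nat.card_eq_fintype_card, FiniteField.pow_card_pow,
        sub_self]
  have h3 : Nat.card (E →+* K) = Nat.card (E →ₐ[ZMod p] K) := by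
    refine Nat.card_congr ⟨fun φ => ⟨φ, fun r => ?_⟩, fun ψ => ψ.toRingHom, fun φ => rfl,
      fun ψ => rfl⟩
    have : (φ.comp (algebraMap (ZMod p) E)) = algebraMap (ZMod p) K := Subsingleton.elim _ _
    exact congrArg (fun f : ZMod p →+* K => f r) this
  rw [h3, h1]
  have h4 : Nat.card E = p ^ Module.finrank (ZMod p) E := by
    rw [Nat.card_eq_fintype_card, Module.card_eq_pow_finrank (K := ZMod p), ZMod.card]
  rw [h4, hK, ← pow_mul] at hE
  exact Nat.pow_right_injective hpp.two_le hE

/-- an embedding forces the cardinality to be a power -/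
theorem pow_of_hom {E : Type u} {K : Type v} [Field E] [Field K] [Finite K]
    (φ : E →+* K) : ∃ j : ℕ, Nat.card E ^ (j + 1) = Nat.card K := by
  have : Finite E := Finite.of_injective φ φ.injective
  have := Fintype.ofFinite E
  have := Fintype.ofFinite K
  let _ : Algebra E K := φ.toAlgebra
  have hfin : Module.Finite E K := Module.Finite.of_finite
  have h1 : 0 < Module.finrank E K := Module.finrank_pos
  refine ⟨Module.finrank E K - 1, ?_⟩
  rw [Nat.sub_add_cancel h1, Nat.card_eq_fintype_card, Nat.card_eq_fintype_card,
    ← Module.card_eq_pow_finrank]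

end W206.ZF
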