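import Mathlib

set_option autoImplicit false

/-! Euler products over weighted sets. -/

namespace W206.ZF

open Complex

universe u

variable {I : Type u} (N : I → ℕ)

/-- the prime power attached to `(i, j)` -/
def qq (x : I × ℕ) : ℕ := N x.1 ^ (x.2 + 1)

/-- the sum of the `N ^ (-(j + 1) s) / (j + 1)` -/
noncomputable def TT (s : ℂ) : ℂ := ∑' x : I × ℕ, (qq N x : ℂ) ^ (-s) / (x.2 + 1)

/-- the coefficient at `q` -/
noncomputable def bb (q : ℕ) : ℂ := ∑' x : qq N ⁻¹' {q}, 1 / ((x.1.2 : ℂ) + 1)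

variable {N}

lemma qq_cpow (x : I × ℕ) (s : ℂ) : (qq N x : ℂ) ^ (-s) = ((N x.1 : ℂ) ^ (-s)) ^ (x.2 + 1) := by
  unfold qq
  rw [Nat.cast_pow, ← Complex.natCast_cpow_natCast_mul, ← Complex.cpow_nat_mul]

lemma norm_lt_one (hN : ∀ i, 2 ≤ N i) {s : ℂ} (hs : 1 < s.re) (i : I) :
    ‖(N i : ℂ) ^ (-s)‖ ≤ 1 / 2 := by
  have h0 : 0 < N i := by have := hN i; omega
  rw [norm_natCast_cpow_of_pos h0, neg_re]
  have h2 : (2 : ℝ) ≤ N i := by exact_mod_cast hN i
  calc (N i : ℝ) ^ (-s.re) ≤ (N i : ℝ) ^ (-1 : ℝ) :=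
        Real.rpow_le_rpow_of_exponent_le (by linarith) (by linarith)
    _ = 1 / (N i : ℝ) := by rw [Real.rpow_neg_one, one_div]
    _ ≤ 1 / 2 := by gcongr

/-- summability of the double series -/
lemma summable_TT (hN : ∀ i, 2 ≤ N i) {s : ℂ} (hs : 1 < s.re)
    (hsum : Summable fun i => (N i : ℝ) ^ (-s.re)) :
    Summable fun x : I × ℕ => (qq N x : ℂ) ^ (-s) / (x.2 + 1) := by
  have h1 : Summable fun x : I × ℕ => (N x.1 : ℝ) ^ (-s.re) * (1 / 2 : ℝ) ^ x.2 := by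
    refine Summable.mul_of_nonneg hsum (summable_geometric_of_lt_one (by norm_num) (by norm_num))
      (fun i => by positivity) (fun j => by positivity)
  refine Summable.of_norm_bounded h1 ?_
  rintro ⟨i, j⟩
  have h0 : 0 < N i := by have := hN i; omega
  rw [norm_div, qq_cpow, norm_pow, pow_succ']
  have h2 := norm_lt_one hN hs i
  have h3 : ‖(N i : ℂ) ^ (-s)‖ = (N i : ℝ) ^ (-s.re) := by
    rw [norm_natCast_cpow_of_pos h0, neg_re]
  have h4 : (1 : ℝ) ≤ ‖((j : ℂ) + 1)‖ := by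
    have : ((j : ℂ) + 1) = ((j + 1 : ℕ) : ℂ) := by push_cast; ring
    rw [this, Complex.norm_natCast]
    exact_mod_cast Nat.le_add_left 1 j
  rw [div_le_iff₀ (by linarith)]
  calc ‖(N i : ℂ) ^ (-s)‖ * ‖(N i : ℂ) ^ (-s)‖ ^ j
      ≤ (N i : ℝ) ^ (-s.re) * (1 / 2 : ℝ) ^ j := by
        rw [h3] at h2 ⊢
        gcongr
    _ ≤ (N i : ℝ) ^ (-s.re) * (1 / 2 : ℝ) ^ j * ‖((j : ℂ) + 1)‖ := by
        apply le_mul_of_one_le_right (by positivity) h4

lemma tsum_row (hN : ∀ i, 2 ≤ N i) {s : ℂ} (hs : 1 < s.re) (i : I) :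
    ∑' j : ℕ, (qq N (i, j) : ℂ) ^ (-s) / ((j : ℂ) + 1) = -log (1 - (N i : ℂ) ^ (-s)) := by
  have h1 := norm_lt_one hN hs i
  have h2 := hasSum_taylorSeries_neg_log' (z := (N i : ℂ) ^ (-s)) (by linarith)
  rw [← h2.tsum_eq]
  refine tsum_congr fun j => ?_
  rw [qq_cpow]

/-- the Euler product as an exponential -/
theorem tprod_eq (hN : ∀ i, 2 ≤ N i) {s : ℂ} (hs : 1 < s.re)
    (hsum : Summable fun i => (N i : ℝ) ^ (-s.re)) :
    ∏' i, (1 - (N i : ℂ) ^ (-s))⁻¹ = exp (TT N s) := by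
  have hS := summable_TT hN hs hsum
  have hnorm : ∀ i, ‖(N i : ℂ) ^ (-s)‖ < 1 := fun i => by
    have := norm_lt_one hN hs i; linarith
  have hne : ∀ i, (1 - (N i : ℂ) ^ (-s)) ≠ 0 := by
    intro i h
    have h1 : (N i : ℂ) ^ (-s) = 1 := (sub_eq_zero.mp h).symm
    have := hnorm i
    rw [h1] at this
    simp at this
  have hlog : ∀ i, log ((1 - (N i : ℂ) ^ (-s))⁻¹) = -log (1 - (N i : ℂ) ^ (-s)) := by
    intro i
    apply log_inv
    intro harg
    have h2 : 0 < (1 - (N i : ℂ) ^ (-s)).re := by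
      rw [sub_re, one_re]
      have := (re_le_norm ((N i : ℂ) ^ (-s))).trans_lt (hnorm i)
      linarith
    have h3 := (Complex.arg_eq_pi_iff.mp harg).1
    linarith
  have h1 : TT N s = ∑' i, log ((1 - (N i : ℂ) ^ (-s))⁻¹) := by
    unfold TT
    rw [hS.tsum_prod]
    refine tsum_congr fun i => ?_
    rw [hlog, ← tsum_row hN hs i]
  rw [h1, Complex.cexp_tsum_eq_tprod]
  · intro i; exact inv_ne_zero (hne i)
  · have h2 := hS.prod
    refine h2.congr fun i => ?_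
    rw [hlog, ← tsum_row hN hs i]

/-- the series as a Dirichlet series -/
theorem hasSum_bb (hN : ∀ i, 2 ≤ N i) {s : ℂ} (hs : 1 < s.re)
    (hsum : Summable fun i => (N i : ℝ) ^ (-s.re)) :
    HasSum (fun q : ℕ => bb N q * (q : ℂ) ^ (-s)) (TT N s) := by
  have h := (summable_TT hN hs hsum).hasSum.tsum_fiberwise (qq N)
  have e : (fun q : ℕ => bb N q * (q : ℂ) ^ (-s)) = fun q : ℕ =>
      ∑' x : qq N ⁻¹' {q}, (qq N x.1 : ℂ) ^ (-s) / ((x.1.2 : ℂ) + 1) := by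
    funext q
    unfold bb
    rw [← tsum_mul_right]
    refine tsum_congr fun x => ?_
    have hx : qq N x.1 = q := x.2
    rw [hx]; ring
  rw [e]
  exact h

end W206.ZF
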