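import Mathlib
import Pool.Agent.W206.ZF.Weighted
import Pool.Agent.W206.ZF.Fields

set_option autoImplicit false

/-! Euler products of finitely generated rings. -/

namespace W206.ZF

universe u v

variable (B : Type u) [CommRing B]

/-- the norm of a maximal ideal -/
noncomputable def nm (m : MaximalSpectrum B) : ℕ := Nat.card (B ⧸ m.asIdeal)

variable [Algebra.FiniteType ℤ B]

theorem finite_quotient (m : MaximalSpectrum B) : Finite (B ⧸ m.asIdeal) := by
  have := m.isMaximal
  let _ : Field (B ⧸ m.asIdeal) := Ideal.Quotient.field m.asIdeal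
  have : Module.Finite ℤ (B ⧸ m.asIdeal) :=
    finite_of_finite_type_of_isJacobsonRing ℤ (B ⧸ m.asIdeal)
  exact finite_of_moduleFinite (B ⧸ m.asIdeal)

theorem two_le_nm (m : MaximalSpectrum B) : 2 ≤ nm B m := by
  have := finite_quotient B m
  have : Nontrivial (B ⧸ m.asIdeal) := Ideal.Quotient.nontrivial_iff.mpr m.isMaximal.ne_top
  exact Finite.one_lt_card

/-- there is `n` such that `B` has at most `|K| ^ n` homomorphisms to `K` -/
theorem exists_bound : ∃ n : ℕ, ∀ (K : Type) [Field K] [Finite K],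
    Finite (B →+* K) ∧ Nat.card (B →+* K) ≤ Nat.card K ^ n := by
  obtain ⟨n, f, hf⟩ := Algebra.FiniteType.iff_quotient_mvPolynomial''.mp
    (inferInstance : Algebra.FiniteType ℤ B)
  refine ⟨n, fun K _ _ => ?_⟩
  have hinj : Function.Injective (fun φ : B →+* K => fun i : Fin n => φ (f (MvPolynomial.X i))) := by
    intro φ ψ h
    have h1 : φ.comp f.toRingHom = ψ.comp f.toRingHom := by
      apply MvPolynomial.ringHom_ext
      · intro r
        simp
      · intro i
        exact congrFun h i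
    apply RingHom.ext
    intro b
    obtain ⟨a, rfl⟩ := hf b
    exact congrArg (fun g : MvPolynomial (Fin n) ℤ →+* K => g a) h1
  refine ⟨Finite.of_injective _ hinj, ?_⟩
  have h2 := Nat.card_le_card_of_injective _ hinj
  rw [Nat.card_fun, Nat.card_fin] at h2
  exact h2

/-- homomorphisms to a finite field are counted by the maximal ideals -/
theorem bb_eq {K : Type} [Field K] [Finite K] {p k : ℕ} [hp : Fact p.Prime]
    (hK : Nat.card K = p ^ k) (hk : k ≠ 0) :
    bb (nm B) (p ^ k) = (Nat.card (B →+* K) : ℂ) / k := by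
  classical
  -- the map
  let F : (Σ x : qq (nm B) ⁻¹' {p ^ k}, ((B ⧸ x.1.1.asIdeal) →+* K)) → (B →+* K) :=
    fun z => z.2.comp (Ideal.Quotient.mk _)
  have hker : ∀ z, RingHom.ker (F z) = z.1.1.1.asIdeal := by
    rintro ⟨⟨⟨m, j⟩, hx⟩, ψ⟩
    have := m.isMaximal
    let _ : Field (B ⧸ m.asIdeal) := Ideal.Quotient.field m.asIdeal
    ext b
    rw [RingHom.mem_ker]
    change ψ (Ideal.Quotient.mk m.asIdeal b) = 0 ↔ _
    rw [map_eq_zero_iff ψ ψ.injective, Ideal.Quotient.eq_zero_iff_mem]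
  have hFinj : Function.Injective F := by
    rintro ⟨⟨⟨m, j⟩, hx⟩, ψ⟩ ⟨⟨⟨m', j'⟩, hx'⟩, ψ'⟩ h
    have h1 : m = m' := by
      have h2 := hker ⟨⟨⟨m, j⟩, hx⟩, ψ⟩
      have h3 := hker ⟨⟨⟨m', j'⟩, hx'⟩, ψ'⟩
      rw [h] at h2
      exact MaximalSpectrum.ext (h2.symm.trans h3)
    subst h1
    have h4 : j = j' := by
      have h5 : nm B m ^ (j + 1) = p ^ k := hx
      have h6 : nm B m ^ (j' + 1) = p ^ k := hx'
      have := Nat.pow_right_injective (two_le_nm B m) (h5.trans h6.symm)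
      omega
    subst h4
    have h7 : ψ = ψ' := by
      apply Ideal.Quotient.ringHom_ext
      exact h
    subst h7
    rfl
  have hFsurj : Function.Surjective F := by
    intro φ
    have hdom : IsDomain (B ⧸ RingHom.ker φ) := by
      rw [Ideal.Quotient.isDomain_iff_prime]
      exact RingHom.ker_isPrime φ
    have hfin : Finite (B ⧸ RingHom.ker φ) :=
      Finite.of_injective (RingHom.kerLift φ) (RingHom.kerLift_injective φ)
    have hmax : (RingHom.ker φ).IsMaximal :=
      Ideal.Quotient.maximal_of_isField _ (Finite.isField_of_domain _)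
    let _ : Field (B ⧸ RingHom.ker φ) := Ideal.Quotient.field _
    obtain ⟨j, hj⟩ := pow_of_hom (RingHom.kerLift φ)
    refine ⟨⟨⟨(⟨RingHom.ker φ, hmax⟩, j), ?_⟩, RingHom.kerLift φ⟩, ?_⟩
    · change Nat.card (B ⧸ RingHom.ker φ) ^ (j + 1) = p ^ k
      rw [hj, hK]
    · ext b
      rfl
  have hbij : Function.Bijective F := ⟨hFinj, hFsurj⟩
  -- embeddings of the residue fields
  have hone : ∀ x : qq (nm B) ⁻¹' {p ^ k},
      Nat.card ((B ⧸ x.1.1.asIdeal) →+* K) * (x.1.2 + 1) = k := by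
    rintro ⟨⟨m, j⟩, hx⟩
    have := m.isMaximal
    have := finite_quotient B m
    let _ : Field (B ⧸ m.asIdeal) := Ideal.Quotient.field m.asIdeal
    refine card_hom hK ?_
    rw [hK]
    exact hx
  obtain ⟨n, hn⟩ := exists_bound B
  have hfinite := (hn K).1
  have hfinS : Finite (Σ x : qq (nm B) ⁻¹' {p ^ k}, ((B ⧸ x.1.1.asIdeal) →+* K)) :=
    Finite.of_injective F hFinj
  have hne : ∀ x : qq (nm B) ⁻¹' {p ^ k}, Nonempty ((B ⧸ x.1.1.asIdeal) →+* K) := by
    intro x
    by_contra hcon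
    rw [not_nonempty_iff] at hcon
    have h1 := hone x
    rw [Nat.card_of_isEmpty, zero_mul] at h1
    exact hk h1.symm
  have hfinF : Finite (qq (nm B) ⁻¹' {p ^ k}) := by
    refine Finite.of_injective (β := Σ x : qq (nm B) ⁻¹' {p ^ k}, ((B ⧸ x.1.1.asIdeal) →+* K))
      (fun x => ⟨x, (hne x).some⟩) ?_
    intro x y h
    exact congrArg Sigma.fst h
  have := Fintype.ofFinite (qq (nm B) ⁻¹' {p ^ k})
  have hcard : Nat.card (B →+* K) = ∑ x : qq (nm B) ⁻¹' {p ^ k},
      Nat.card ((B ⧸ x.1.1.asIdeal) →+* K) := by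
    rw [← Nat.card_congr (Equiv.ofBijective F hbij)]
    have : ∀ x : qq (nm B) ⁻¹' {p ^ k}, Finite ((B ⧸ x.1.1.asIdeal) →+* K) := by
      intro x
      refine Finite.of_injective (fun ψ => F ⟨x, ψ⟩) ?_
      intro ψ ψ' h
      have := hFinj h
      simpa using this
    rw [Nat.card_sigma]
  rw [hcard]
  unfold bb
  rw [tsum_fintype, Nat.cast_sum, Finset.sum_div]
  refine Finset.sum_congr rfl fun x _ => ?_
  have h1 := hone x
  have h2 : (k : ℂ) ≠ 0 := by exact_mod_cast hk
  have h3 : ((x.1.2 : ℂ) + 1) ≠ 0 := by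
    have : ((x.1.2 : ℂ) + 1) = ((x.1.2 + 1 : ℕ) : ℂ) := by push_cast; ring
    rw [this]
    exact_mod_cast Nat.succ_ne_zero x.1.2
  rw [div_eq_div_iff h3 h2, one_mul]
  exact_mod_cast h1.symm

/-- maximal ideals of given norm -/
theorem bb_eq_zero {q : ℕ} (hq : ¬ IsPrimePow q) : bb (nm B) q = 0 := by
  have hemp : IsEmpty (qq (nm B) ⁻¹' {q}) := by
    constructor
    rintro ⟨⟨m, j⟩, hx⟩
    apply hq
    have h1 : nm B m ^ (j + 1) = q := hx
    have := m.isMaximal
    have := finite_quotient B m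
    let _ : Field (B ⧸ m.asIdeal) := Ideal.Quotient.field m.asIdeal
    have := Fintype.ofFinite (B ⧸ m.asIdeal)
    obtain ⟨p, hc⟩ := CharP.exists (B ⧸ m.asIdeal)
    obtain ⟨n, hp, hn⟩ := FiniteField.card (B ⧸ m.asIdeal) p
    rw [← h1]
    have h2 : nm B m = p ^ (n : ℕ) := by
      unfold nm; rw [Nat.card_eq_fintype_card, hn]
    rw [h2, ← pow_mul]
    exact hp.isPrimePow.pow (Nat.mul_ne_zero n.ne_zero (Nat.succ_ne_zero j))
  unfold bb
  exact tsum_empty

end W206.ZF
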