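import Mathlib
import Pool.Agent.W206.ZF.Rings

set_option autoImplicit false

/-! Summability for Euler products of finitely generated rings; the zeta function. -/

namespace W206.ZF

universe u v

theorem summable_of_count {I : Type u} {N : I → ℕ} {n : ℕ} (h2 : ∀ i, 2 ≤ N i)
    (h : ∀ (q : ℕ) (s : Finset I), (∀ i ∈ s, N i = q) → s.card ≤ q ^ n) {σ : ℝ}
    (hσ : (n : ℝ) + 1 < σ) : Summable fun i => (N i : ℝ) ^ (-σ) := by
  classical
  have hsum : Summable fun q : ℕ => (q : ℝ) ^ ((n : ℝ) - σ) :=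
    Real.summable_nat_rpow.mpr (by linarith)
  refine summable_of_sum_le (c := ∑' q : ℕ, (q : ℝ) ^ ((n : ℝ) - σ)) (fun i => by positivity) ?_
  intro u
  rw [Finset.sum_comp (fun q : ℕ => (q : ℝ) ^ (-σ)) N]
  calc ∑ b ∈ u.image N, (u.filter fun a => N a = b).card • ((b : ℝ) ^ (-σ))
      ≤ ∑ b ∈ u.image N, (b : ℝ) ^ ((n : ℝ) - σ) := by
        refine Finset.sum_le_sum fun b hb => ?_
        obtain ⟨i, _, hi⟩ := Finset.mem_image.mp hb
        have hb0 : (0 : ℝ) < b := by
          have := h2 i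
          rw [hi] at this
          exact_mod_cast (by omega : 0 < b)
        have h1 := h b (u.filter fun a => N a = b) (fun i hi => (Finset.mem_filter.mp hi).2)
        rw [nsmul_eq_mul, sub_eq_add_neg, Real.rpow_add hb0, Real.rpow_natCast]
        have h3 : (((u.filter fun a => N a = b).card : ℕ) : ℝ) ≤ (b : ℝ) ^ n := by
          exact_mod_cast h1
        gcongr
    _ ≤ ∑' q : ℕ, (q : ℝ) ^ ((n : ℝ) - σ) :=
        hsum.sum_le_tsum _ (fun q _ => by positivity)

variable (B : Type u) [CommRing B] [Algebra.FiniteType ℤ B]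

theorem count_nm {n : ℕ} (hn : ∀ (K : Type) [Field K] [Finite K],
    Finite (B →+* K) ∧ Nat.card (B →+* K) ≤ Nat.card K ^ n) (q : ℕ)
    (s : Finset (MaximalSpectrum B)) (hs : ∀ m ∈ s, nm B m = q) : s.card ≤ q ^ n := by
  rcases s.eq_empty_or_nonempty with rfl | ⟨m₀, hm₀⟩
  · simp
  · -- `q` is a prime power
    have hex : ∃ (p k : ℕ), p.Prime ∧ k ≠ 0 ∧ q = p ^ k := by
      have h1 := hs m₀ hm₀
      have := m₀.isMaximal
      have := finite_quotient B m₀
      let _ : Field (B ⧸ m₀.asIdeal) := Ideal.Quotient.field m₀.asIdeal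
      have := Fintype.ofFinite (B ⧸ m₀.asIdeal)
      obtain ⟨p, hc⟩ := CharP.exists (B ⧸ m₀.asIdeal)
      obtain ⟨n, hp, hn⟩ := FiniteField.card (B ⧸ m₀.asIdeal) p
      refine ⟨p, n, hp, n.ne_zero, ?_⟩
      rw [← h1]
      unfold nm; rw [Nat.card_eq_fintype_card, hn]
    obtain ⟨p, k, hp, hk, rfl⟩ := hex
    have : Fact p.Prime := ⟨hp⟩
    have hKc : Nat.card (GaloisField p k) = p ^ k := GaloisField.card p k hk
    have : Finite (GaloisField p k) := Nat.finite_of_card_ne_zero (by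
      rw [hKc]; exact (pow_pos hp.pos k).ne')
    have key : ∀ m : MaximalSpectrum B, nm B m = p ^ k →
        ∃ φ : B →+* GaloisField p k, RingHom.ker φ = m.asIdeal := by
      intro m hm
      have := m.isMaximal
      have := finite_quotient B m
      let _ : Field (B ⧸ m.asIdeal) := Ideal.Quotient.field m.asIdeal
      have h1 : Nat.card ((B ⧸ m.asIdeal) →+* GaloisField p k) * (0 + 1) = k :=
        card_hom hKc (by rw [hKc, zero_add, pow_one]; exact hm)
      have h2 : Nonempty ((B ⧸ m.asIdeal) →+* GaloisField p k) := by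
        by_contra hcon
        rw [not_nonempty_iff] at hcon
        rw [Nat.card_of_isEmpty, zero_mul] at h1
        exact hk h1.symm
      obtain ⟨ψ⟩ := h2
      refine ⟨ψ.comp (Ideal.Quotient.mk _), ?_⟩
      ext b
      rw [RingHom.mem_ker, RingHom.comp_apply, map_eq_zero_iff ψ ψ.injective,
        Ideal.Quotient.eq_zero_iff_mem]
    obtain ⟨φ₀, _⟩ := key m₀ (hs m₀ hm₀)
    have : Nonempty (B →+* GaloisField p k) := ⟨φ₀⟩
    choose! F hF using key
    obtain ⟨hfin, hcard⟩ := hn (GaloisField p k)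
    rw [hKc] at hcard
    have := Fintype.ofFinite (B →+* GaloisField p k)
    refine le_trans ?_ hcard
    rw [Nat.card_eq_fintype_card, ← Finset.card_univ]
    refine Finset.card_le_card_of_injOn F (fun m _ => Finset.mem_univ _) ?_
    intro m hm m' hm' h
    have h1 := hF m (hs m hm)
    have h2 := hF m' (hs m' hm')
    rw [h] at h1
    exact MaximalSpectrum.ext (h1.symm.trans h2)

theorem exists_summable : ∃ σ₀ : ℝ, 1 ≤ σ₀ ∧ ∀ σ : ℝ, σ₀ < σ →
    Summable fun m : MaximalSpectrum B => (nm B m : ℝ) ^ (-σ) := by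
  obtain ⟨n, hn⟩ := exists_bound B
  refine ⟨n + 1, by simp, fun σ hσ => ?_⟩
  exact summable_of_count (two_le_nm B) (count_nm B hn) hσ

/-! ### The Riemann zeta function -/

/-- the primes with their values -/
def pv (p : Nat.Primes) : ℕ := p

theorem two_le_pv (p : Nat.Primes) : 2 ≤ pv p := p.2.two_le

theorem summable_pv {σ : ℝ} (hσ : 1 < σ) : Summable fun p : Nat.Primes => (pv p : ℝ) ^ (-σ) := by
  refine summable_of_count (n := 0) two_le_pv ?_ (by simpa using hσ)
  intro q s hs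
  rw [pow_zero, Finset.card_le_one]
  intro a ha b hb
  exact Subtype.ext ((hs a ha).trans (hs b hb).symm)

theorem exp_TT_pv {s : ℂ} (hs : 1 < s.re) : Complex.exp (TT pv s) = riemannZeta s := by
  rw [← riemannZeta_eulerProduct_exp_log hs]
  congr 1
  unfold TT
  rw [(summable_TT two_le_pv hs (summable_pv hs)).tsum_prod]
  refine tsum_congr fun p => ?_
  exact tsum_row two_le_pv hs p

theorem bb_pv {p k : ℕ} (hp : p.Prime) (hk : k ≠ 0) : bb pv (p ^ k) = 1 / (k : ℂ) := by
  classical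
  have hx : (⟨(⟨p, hp⟩, k - 1), by
      change p ^ (k - 1 + 1) = p ^ k
      rw [Nat.sub_add_cancel (Nat.pos_of_ne_zero hk)]⟩ : qq pv ⁻¹' {p ^ k}) ∈
        (Set.univ : Set (qq pv ⁻¹' {p ^ k})) := trivial
  have huniq : ∀ x : qq pv ⁻¹' {p ^ k}, x = ⟨(⟨p, hp⟩, k - 1), by
      change p ^ (k - 1 + 1) = p ^ k
      rw [Nat.sub_add_cancel (Nat.pos_of_ne_zero hk)]⟩ := by
    rintro ⟨⟨⟨p', hp'⟩, j⟩, h⟩
    have h1 : p' ^ (j + 1) = p ^ k := h
    have h2 : p' = p := by
      have : p' ∣ p ^ k := h1 ▸ dvd_pow_self p' (Nat.succ_ne_zero j)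
      exact (Nat.prime_dvd_prime_iff_eq hp' hp).mp (hp'.dvd_of_dvd_pow this)
    subst h2
    have h3 : j + 1 = k := Nat.pow_right_injective hp.two_le h1
    have h4 : j = k - 1 := by omega
    subst h4
    rfl
  unfold bb
  rw [tsum_eq_single _ (fun b hb => absurd (huniq b) hb)]
  have : (((k - 1 : ℕ) : ℂ) + 1) = (k : ℂ) := by
    have h5 : k - 1 + 1 = k := Nat.sub_add_cancel (Nat.pos_of_ne_zero hk)
    exact_mod_cast h5
  change 1 / (((k - 1 : ℕ) : ℂ) + 1) = 1 / (k : ℂ)
  rw [this]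

theorem bb_pv_zero {q : ℕ} (hq : ¬ IsPrimePow q) : bb pv q = 0 := by
  have hemp : IsEmpty (qq pv ⁻¹' {q}) := by
    constructor
    rintro ⟨⟨⟨p, hp⟩, j⟩, hx⟩
    apply hq
    have h1 : p ^ (j + 1) = q := hx
    rw [← h1]
    exact hp.isPrimePow.pow (Nat.succ_ne_zero j)
  unfold bb
  exact tsum_empty

end W206.ZF
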