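import Mathlib
import Pool.Agent.W206.ZF.Summ
import Pool.Agent.W206.ZF.Pres

set_option autoImplicit false

/-! The hypersurfaces `∑ t_j q_j(x) = 1`. -/

namespace W206.ZF

open MvPolynomial

/-- `∑ t_j q_j(x) - 1` -/
noncomputable def gW {n r : ℕ} (q : Fin r → MvPolynomial (Fin n) ℤ) :
    MvPolynomial (Fin n ⊕ Fin r) ℤ :=
  ∑ j, X (Sum.inr j) * rename Sum.inl (q j) - 1

/-- homomorphisms of a hypersurface ring -/
theorem card_hom_hyp {σ : Type} (g : MvPolynomial σ ℤ) (K : Type) [Field K] :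
    Nat.card ((MvPolynomial σ ℤ ⧸ Ideal.span {g}) →+* K) =
      Nat.card {z : σ → K // aeval z g = 0} := by
  have hval : ∀ (φ : (MvPolynomial σ ℤ ⧸ Ideal.span {g}) →+* K) (h : MvPolynomial σ ℤ),
      aeval (fun i => φ (Ideal.Quotient.mk _ (X i))) h = φ (Ideal.Quotient.mk _ h) := by
    intro φ h
    have h1 : (aeval (fun i => φ (Ideal.Quotient.mk _ (X i))) :
        MvPolynomial σ ℤ →ₐ[ℤ] K).toRingHom = φ.comp (Ideal.Quotient.mk _) := by
      apply MvPolynomial.ringHom_ext
      · intro r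
        simp
      · intro i
        simp
    exact congrArg (fun g' : MvPolynomial σ ℤ →+* K => g' h) h1
  refine Nat.card_congr (Equiv.ofBijective
    (fun φ => ⟨fun i => φ (Ideal.Quotient.mk _ (X i)), ?_⟩) ⟨?_, ?_⟩)
  · rw [hval]
    have : Ideal.Quotient.mk (Ideal.span {g}) g = 0 :=
      Ideal.Quotient.eq_zero_iff_mem.mpr (Ideal.mem_span_singleton_self g)
    rw [this, map_zero]
  · intro φ ψ h
    apply Ideal.Quotient.ringHom_ext
    apply RingHom.ext
    intro b
    change φ (Ideal.Quotient.mk _ b) = ψ (Ideal.Quotient.mk _ b)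
    rw [← hval, ← hval]
    have h1 : (fun i => φ (Ideal.Quotient.mk _ (X i))) = fun i => ψ (Ideal.Quotient.mk _ (X i)) :=
      congrArg Subtype.val h
    rw [h1]
  · rintro ⟨x, hx⟩
    refine ⟨Ideal.Quotient.lift _ (aeval x : MvPolynomial σ ℤ →ₐ[ℤ] K).toRingHom ?_, ?_⟩
    · intro a ha
      obtain ⟨b, rfl⟩ := Ideal.mem_span_singleton.mp ha
      rw [map_mul]
      have : (aeval x : MvPolynomial σ ℤ →ₐ[ℤ] K).toRingHom g = 0 := hx
      rw [this, zero_mul]
    · apply Subtype.ext
      funext i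
      change Ideal.Quotient.lift _ _ _ (Ideal.Quotient.mk _ (X i)) = x i
      rw [Ideal.Quotient.lift_mk]
      exact aeval_X _ _

/-- the number of solutions of a linear equation -/
theorem card_lin {K : Type} [Field K] [Finite K] {r : ℕ} (a : Fin (r + 1) → K) (ha : a ≠ 0) :
    Nat.card {t : Fin (r + 1) → K // ∑ j, t j * a j = 1} = Nat.card K ^ r := by
  classical
  have := Fintype.ofFinite K
  obtain ⟨j₀, hj₀⟩ := Function.ne_iff.mp ha
  have hj₀' : a j₀ ≠ 0 := hj₀
  have hsame : ∀ y : K, Nat.card {t : Fin (r + 1) → K // ∑ j, t j * a j = y} =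
      Nat.card {t : Fin (r + 1) → K // ∑ j, t j * a j = 1} := by
    intro y
    have hshift : ∀ (t : Fin (r + 1) → K) (c : K),
        ∑ j, (t + Pi.single j₀ (c / a j₀) : Fin (r + 1) → K) j * a j = ∑ j, t j * a j + c := by
      intro t c
      simp only [Pi.add_apply, add_mul, Finset.sum_add_distrib]
      congr 1
      rw [Finset.sum_eq_single j₀]
      · rw [Pi.single_eq_same, div_mul_cancel₀ _ hj₀']
      · intro b _ hb
        rw [Pi.single_eq_of_ne hb, zero_mul]
      · intro h; exact absurd (Finset.mem_univ _) h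
    refine Nat.card_congr ⟨fun t => ⟨t.1 + Pi.single j₀ ((1 - y) / a j₀), ?_⟩,
      fun t => ⟨t.1 + Pi.single j₀ ((y - 1) / a j₀), ?_⟩, ?_, ?_⟩
    · rw [hshift, t.2]; ring
    · rw [hshift, t.2]; ring
    · intro t
      apply Subtype.ext
      change t.1 + Pi.single j₀ ((1 - y) / a j₀) + Pi.single j₀ ((y - 1) / a j₀) = t.1
      rw [add_assoc, ← Pi.single_add, ← add_div]
      have : (1 - y + (y - 1)) = 0 := by ring
      rw [this, zero_div, Pi.single_zero, add_zero]
    · intro t
      apply Subtype.ext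
      change t.1 + Pi.single j₀ ((y - 1) / a j₀) + Pi.single j₀ ((1 - y) / a j₀) = t.1
      rw [add_assoc, ← Pi.single_add, ← add_div]
      have : (y - 1 + (1 - y)) = 0 := by ring
      rw [this, zero_div, Pi.single_zero, add_zero]
  have htot : Nat.card (Fin (r + 1) → K) = ∑ y : K,
      Nat.card {t : Fin (r + 1) → K // ∑ j, t j * a j = y} := by
    rw [← Nat.card_sigma]
    exact Nat.card_congr (Equiv.sigmaFiberEquiv (fun t : Fin (r + 1) → K => ∑ j, t j * a j)).symm
  simp only [hsame] at htot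
  rw [Nat.card_fun, Nat.card_fin, Finset.sum_const, Finset.card_univ, smul_eq_mul,
    ← Nat.card_eq_fintype_card, pow_succ'] at htot
  exact (Nat.eq_of_mul_eq_mul_left Nat.card_pos htot).symm

/-- the number of points of the hypersurface `∑ t_j q_j(x) = 1` -/
theorem card_cubic {K : Type} [Field K] [Finite K] {n r : ℕ}
    (q : Fin (r + 1) → MvPolynomial (Fin n) ℤ) :
    Nat.card {z : Fin n ⊕ Fin (r + 1) → K // aeval z (gW q) = 0} +
      Nat.card K ^ r * Nat.card {x : Fin n → K // ∀ j, aeval x (q j) = 0} =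
        Nat.card K ^ (r + n) := by
  classical
  have := Fintype.ofFinite K
  have hev : ∀ z : Fin n ⊕ Fin (r + 1) → K, aeval z (gW q) = 0 ↔
      ∑ j, z (Sum.inr j) * aeval (fun i => z (Sum.inl i)) (q j) = 1 := by
    intro z
    unfold gW
    rw [map_sub, map_one, map_sum, sub_eq_zero]
    have : ∀ j, aeval z (X (Sum.inr j) * rename Sum.inl (q j)) =
        z (Sum.inr j) * aeval (fun i => z (Sum.inl i)) (q j) := by
      intro j
      rw [map_mul, aeval_X, aeval_rename]
      rfl
    simp only [this]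
  have h1 : Nat.card {z : Fin n ⊕ Fin (r + 1) → K // aeval z (gW q) = 0} =
      ∑ x : Fin n → K, Nat.card {t : Fin (r + 1) → K // ∑ j, t j * aeval x (q j) = 1} := by
    rw [← Nat.card_sigma]
    refine Nat.card_congr ⟨fun z => ⟨fun i => z.1 (Sum.inl i), fun j => z.1 (Sum.inr j),
      (hev z.1).mp z.2⟩, fun w => ⟨Sum.elim w.1 w.2.1, (hev _).mpr w.2.2⟩, ?_, ?_⟩
    · intro z
      apply Subtype.ext
      funext i
      rcases i with i | i <;> rfl
    · rintro ⟨x, t, ht⟩
      rfl
  have h2 : Nat.card {x : Fin n → K // ∀ j, aeval x (q j) = 0} =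
      ∑ x : Fin n → K, (if ∀ j, aeval x (q j) = 0 then 1 else 0) := by
    rw [Nat.card_eq_fintype_card, Fintype.card_subtype, Finset.card_filter]
  rw [h1, h2, Finset.mul_sum, ← Finset.sum_add_distrib]
  have h3 : ∀ x : Fin n → K, Nat.card {t : Fin (r + 1) → K // ∑ j, t j * aeval x (q j) = 1} +
      Nat.card K ^ r * (if ∀ j, aeval x (q j) = 0 then 1 else 0) = Nat.card K ^ r := by
    intro x
    by_cases hx : ∀ j, aeval x (q j) = 0
    · rw [if_pos hx, mul_one]
      have : IsEmpty {t : Fin (r + 1) → K // ∑ j, t j * aeval x (q j) = 1} := by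
        constructor
        rintro ⟨t, ht⟩
        simp [hx] at ht
      rw [Nat.card_of_isEmpty, zero_add]
    · rw [if_neg hx, mul_zero, add_zero]
      exact card_lin (fun j => aeval x (q j)) (fun h => hx (fun j => congrFun h j))
  rw [Finset.sum_congr rfl (fun x _ => h3 x), Finset.sum_const, Finset.card_univ, smul_eq_mul,
    ← Nat.card_eq_fintype_card, Nat.card_fun, Nat.card_fin, ← pow_add, Nat.add_comm]

end W206.ZF
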