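import Mathlib
import Pool.Agent.W206.ZF.Cubic

set_option autoImplicit false

/-! The relation of the zeta functions. -/

namespace W206.ZF

open MvPolynomial Complex Filter Topology

/-- the zeta function of a ring -/
noncomputable def ZZ (B : Type) [CommRing B] (s : ℂ) : ℂ :=
  ∏' m : MaximalSpectrum B, (1 - (nm B m : ℂ) ^ (-s))⁻¹

theorem meromorphic_zeta : MeromorphicOn riemannZeta Set.univ := by
  intro s _
  by_cases hs : s = 1
  · subst hs
    -- `(s - 1) ζ(s)` is analytic after filling in the value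
    set g : ℂ → ℂ := Function.update (fun s => (s - 1) * riemannZeta s) 1 1 with hg
    have h1 : AnalyticAt ℂ g 1 := by
      apply analyticAt_of_differentiable_on_punctured_nhds_of_continuousAt
      · filter_upwards [self_mem_nhdsWithin] with t ht
        have ht' : t ≠ 1 := ht
        have h2 : g =ᶠ[𝓝 t] fun s => (s - 1) * riemannZeta s := by
          filter_upwards [isOpen_ne.mem_nhds ht'] with u hu
          rw [hg, Function.update_of_ne hu]
        rw [h2.differentiableAt_iff]
        exact (differentiableAt_id.sub_const 1).mul (differentiableAt_riemannZeta ht')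
      · rw [hg, continuousAt_update_same]
        exact riemannZeta_residue_one
    have h3 : MeromorphicAt (fun s => g s / (s - 1)) 1 :=
      h1.meromorphicAt.div (by fun_prop)
    refine (MeromorphicAt.meromorphicAt_congr ?_).mp h3
    filter_upwards [self_mem_nhdsWithin] with t ht
    have ht' : t ≠ 1 := ht
    rw [hg, Function.update_of_ne ht', mul_div_cancel_left₀ _ (sub_ne_zero.mpr ht')]
  · have h : DifferentiableOn ℂ riemannZeta {1}ᶜ := fun t ht =>
      (differentiableAt_riemannZeta ht).differentiableWithinAt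
    exact (h.analyticAt (isOpen_compl_singleton.mem_nhds hs)).meromorphicAt

theorem ZZ_eq (B : Type) [CommRing B] [Algebra.FiniteType ℤ B] {s : ℂ} (hs : 1 < s.re)
    (hsum : Summable fun m : MaximalSpectrum B => (nm B m : ℝ) ^ (-s.re)) :
    ZZ B s = exp (TT (nm B) s) :=
  tprod_eq (two_le_nm B) hs hsum

/-- the key relation -/
theorem relation (B W : Type) [CommRing B] [Algebra.FiniteType ℤ B] [CommRing W]
    [Algebra.FiniteType ℤ W] (n r : ℕ)
    (hc : ∀ (K : Type) [Field K] [Finite K],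
      Nat.card (W →+* K) + Nat.card K ^ r * Nat.card (B →+* K) = Nat.card K ^ (r + n)) :
    ∃ σ₀ : ℝ, ∀ s : ℂ, σ₀ < s.re →
      TT (nm W) (s + r) + TT (nm B) s = TT pv (s - n) ∧
      ZZ W (s + r) * ZZ B s = riemannZeta (s - n) ∧ ZZ W (s + r) ≠ 0 := by
  obtain ⟨σB, hσB1, hσB⟩ := exists_summable B
  obtain ⟨σW, hσW1, hσW⟩ := exists_summable W
  refine ⟨max (max σB σW) (n + 1), fun s hs => ?_⟩
  have h1 : σB < s.re := lt_of_le_of_lt ((le_max_left _ _).trans (le_max_left _ _)) hs
  have h2 : σW < s.re := lt_of_le_of_lt ((le_max_right _ _).trans (le_max_left _ _)) hs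
  have h3 : (n : ℝ) + 1 < s.re := lt_of_le_of_lt (le_max_right _ _) hs
  have hre : (s + r).re = s.re + r := by simp
  have hre' : (s - n).re = s.re - n := by simp
  have hr0 : (0 : ℝ) ≤ r := Nat.cast_nonneg r
  have hn0 : (0 : ℝ) ≤ n := Nat.cast_nonneg n
  have sB := hσB s.re h1
  have sW := hσW (s + r).re (by rw [hre]; linarith)
  have sP : Summable fun p : Nat.Primes => (pv p : ℝ) ^ (-(s - n).re) :=
    summable_pv (by rw [hre']; linarith)
  have HB := hasSum_bb (two_le_nm B) (by linarith : 1 < s.re) sB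
  have HW := hasSum_bb (two_le_nm W) (by rw [hre]; linarith : 1 < (s + r).re) sW
  have HP := hasSum_bb two_le_pv (by rw [hre']; linarith : 1 < (s - n).re) sP
  have hsumm := HW.add HB
  have hterm : ∀ q : ℕ, bb (nm W) q * (q : ℂ) ^ (-(s + r)) + bb (nm B) q * (q : ℂ) ^ (-s) =
      bb pv q * (q : ℂ) ^ (-(s - n)) := by
    intro q
    by_cases hq : IsPrimePow q
    · obtain ⟨p, k, hp, hk, rfl⟩ := hq
      have hp' : p.Prime := hp.nat_prime
      have : Fact p.Prime := ⟨hp'⟩
      have hk' : k ≠ 0 := hk.ne'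
      have hKc : Nat.card (GaloisField p k) = p ^ k := GaloisField.card p k hk'
      have : Finite (GaloisField p k) := Nat.finite_of_card_ne_zero (by
        rw [hKc]; exact (pow_pos hp'.pos k).ne')
      rw [bb_eq W hKc hk', bb_eq B hKc hk', bb_pv hp' hk']
      have hc1 := hc (GaloisField p k)
      rw [hKc] at hc1
      set w := Nat.card (W →+* GaloisField p k)
      set b := Nat.card (B →+* GaloisField p k)
      have hc2 : (w : ℂ) = (p ^ k : ℕ) ^ (r + n) - (p ^ k : ℕ) ^ r * b := by
        have := congrArg (Nat.cast : ℕ → ℂ) hc1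
        push_cast at this ⊢
        linear_combination this
      have hq0 : ((p ^ k : ℕ) : ℂ) ≠ 0 := by exact_mod_cast (pow_pos hp'.pos k).ne'
      have e1 : ((p ^ k : ℕ) : ℂ) ^ (-(s + r)) =
          ((p ^ k : ℕ) : ℂ) ^ (-s) * (((p ^ k : ℕ) : ℂ) ^ r)⁻¹ := by
        rw [neg_add, cpow_add _ _ hq0, cpow_neg _ (r : ℂ), cpow_natCast]
      have e2 : ((p ^ k : ℕ) : ℂ) ^ (-(s - n)) =
          ((p ^ k : ℕ) : ℂ) ^ (-s) * ((p ^ k : ℕ) : ℂ) ^ n := by
        rw [neg_sub, sub_eq_neg_add, cpow_add _ _ hq0, cpow_natCast]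
      rw [e1, e2, hc2]
      have hqr : (((p ^ k : ℕ) : ℂ) ^ r) ≠ 0 := pow_ne_zero _ hq0
      have hkC : (k : ℂ) ≠ 0 := by exact_mod_cast hk'
      field_simp
      ring
    · rw [bb_eq_zero W hq, bb_eq_zero B hq, bb_pv_zero hq]; ring
  have hTT : TT (nm W) (s + r) + TT (nm B) s = TT pv (s - n) := by
    have h4 := HP
    rw [← funext hterm] at h4
    exact hsumm.unique h4
  refine ⟨hTT, ?_, ?_⟩
  · rw [ZZ_eq W (by rw [hre]; linarith) sW, ZZ_eq B (by linarith) sB, ← Complex.exp_add, hTT,
      exp_TT_pv (by rw [hre']; linarith)]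
  · rw [ZZ_eq W (by rw [hre]; linarith) sW]
    exact Complex.exp_ne_zero _

/-- meromorphic continuation of the zeta function of a ring -/
def Cont (B : Type) [CommRing B] : Prop :=
  ∃ F : ℂ → ℂ, MeromorphicOn F Set.univ ∧ ∃ σ : ℝ, ∀ s : ℂ, σ < s.re → F s = ZZ B s

theorem cont_of_relation (B W : Type) [CommRing B] [Algebra.FiniteType ℤ B] [CommRing W]
    [Algebra.FiniteType ℤ W] (n r : ℕ)
    (hc : ∀ (K : Type) [Field K] [Finite K],
      Nat.card (W →+* K) + Nat.card K ^ r * Nat.card (B →+* K) = Nat.card K ^ (r + n))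
    (hW : Cont W) : Cont B := by
  obtain ⟨F, hF, σ, hσ⟩ := hW
  obtain ⟨σ₀, hσ₀⟩ := relation B W n r hc
  have hr0 : (0 : ℝ) ≤ r := Nat.cast_nonneg r
  refine ⟨fun s => riemannZeta (s - n) / F (s + r), ?_, max σ σ₀, fun s hs => ?_⟩
  · intro s _
    have h1 : MeromorphicAt (riemannZeta ∘ fun s : ℂ => s - n) s :=
      MeromorphicAt.comp_analyticAt (g := fun s : ℂ => s - n) (meromorphic_zeta (s - n) trivial)
        (by fun_prop)
    have h2 : MeromorphicAt (F ∘ fun s : ℂ => s + r) s :=
      MeromorphicAt.comp_analyticAt (g := fun s : ℂ => s + r) (hF (s + r) trivial) (by fun_prop)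
    exact h1.div h2
  · obtain ⟨_, h1, h2⟩ := hσ₀ s (lt_of_le_of_lt (le_max_right _ _) hs)
    have h3 : F (s + r) = ZZ W (s + r) := hσ _ (by
      have := lt_of_le_of_lt (le_max_left _ _) hs
      simp only [add_re, natCast_re]
      linarith)
    change riemannZeta (s - n) / F (s + r) = ZZ B s
    rw [h3, ← h1, mul_div_cancel_left₀ _ h2]

theorem finiteType_of_surj {σ : Type} [Finite σ] {A : Type} [CommRing A]
    (f : MvPolynomial σ ℤ →+* A) (hf : Function.Surjective f) : Algebra.FiniteType ℤ A :=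
  Algebra.FiniteType.of_surjective
    (⟨f, fun r => by
      rw [MvPolynomial.algebraMap_eq]
      exact congrArg (fun g : ℤ →+* A => g r)
        (Subsingleton.elim (f.comp C) (algebraMap ℤ A))⟩ : MvPolynomial σ ℤ →ₐ[ℤ] A) hf

/-- the zeta function of a finitely generated ring can be continued if those of the cubic
hypersurfaces can be continued -/
theorem cont_of_cubic
    (H : ∀ (n r : ℕ) (q : Fin (r + 1) → MvPolynomial (Fin n) ℤ), (∀ j, IsGate (q j)) →
      Cont (MvPolynomial (Fin n ⊕ Fin (r + 1)) ℤ ⧸ Ideal.span {gW q}))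
    (B : Type) [CommRing B] [Algebra.FiniteType ℤ B] : Cont B := by
  obtain ⟨n, r, q, hq, hB⟩ := exists_gates_ring B
  have := finiteType_of_surj (Ideal.Quotient.mk (Ideal.span {gW q})) Ideal.Quotient.mk_surjective
  refine cont_of_relation B (MvPolynomial (Fin n ⊕ Fin (r + 1)) ℤ ⧸ Ideal.span {gW q}) n r ?_
    (H n r q hq)
  intro K _ _
  rw [card_hom_hyp, hB K]
  exact card_cubic q

end W206.ZF
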