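import Mathlib
import Pool.Agent.W206.ZF.Rings

set_option autoImplicit false

/-! Closed points of schemes of finite type over `ℤ`. -/

namespace W206.ZF

open AlgebraicGeometry CategoryTheory TopologicalSpace

/-- finitely many affine charts -/
theorem exists_charts (X : Scheme.{0}) [CompactSpace X] :
    ∃ (k : ℕ) (A : Fin k → CommRingCat.{0}) (φ : ∀ i, Spec (A i) ⟶ X),
      (∀ i, IsOpenImmersion (φ i)) ∧ ∀ x : X, ∃ i, x ∈ Set.range (φ i) := by
  classical
  let 𝒰 := X.affineOpenCover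
  obtain ⟨t, ht⟩ := isCompact_univ.elim_finite_subcover
    (fun x : X => Set.range (𝒰.f (𝒰.idx x))) (fun x => (𝒰.f (𝒰.idx x)).isOpenEmbedding.isOpen_range)
    (fun x _ => Set.mem_iUnion.mpr ⟨x, 𝒰.covers x⟩)
  let e := t.equivFin
  refine ⟨t.card, fun i => 𝒰.X (𝒰.idx (e.symm i).1), fun i => 𝒰.f (𝒰.idx (e.symm i).1),
    fun i => inferInstance, fun x => ?_⟩
  obtain ⟨y, hy, hx⟩ := Set.mem_iUnion₂.mp (ht (Set.mem_univ x))
  refine ⟨e ⟨y, hy⟩, ?_⟩
  have h1 : (e.symm (e ⟨y, hy⟩)).1 = y := by rw [Equiv.symm_apply_apply]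
  change x ∈ Set.range (𝒰.f (𝒰.idx (e.symm (e ⟨y, hy⟩)).1))
  rw [h1]
  exact hx

/-- cardinality of the residue field in an affine chart -/
theorem card_residueField {X : Scheme.{0}} {A : CommRingCat.{0}} (φ : Spec A ⟶ X)
    [IsOpenImmersion φ] (y : Spec A) (hy : y.asIdeal.IsMaximal) :
    Nat.card (X.residueField (φ y)) = Nat.card (A ⧸ y.asIdeal) := by
  have e1 := (asIso (φ.residueFieldMap y)).commRingCatIsoToRingEquiv.toEquiv
  have e2 := (Scheme.Spec.residueFieldIso A y).commRingCatIsoToRingEquiv.toEquiv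
  rw [Nat.card_congr e1, Nat.card_congr e2]
  exact (Nat.card_congr (Equiv.ofBijective _
    (Ideal.bijective_algebraMap_quotient_residueField y.asIdeal))).symm

/-- a chart of a scheme locally of finite type over `ℤ` -/
theorem finiteType_chart {X : Scheme.{0}} (f : X ⟶ Spec (CommRingCat.of ℤ))
    [LocallyOfFiniteType f] {A : CommRingCat.{0}} (φ : Spec A ⟶ X) [IsOpenImmersion φ] :
    Algebra.FiniteType ℤ A := by
  obtain ⟨ψ, hψ⟩ := Spec.map_surjective (φ ≫ f)
  have h1 : LocallyOfFiniteType (Spec.map ψ) := by rw [hψ]; infer_instance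
  rw [HasRingHomProperty.Spec_iff (P := @LocallyOfFiniteType)] at h1
  have h2 : ψ.hom = algebraMap ℤ A := Subsingleton.elim _ _
  rw [h2] at h1
  exact RingHom.finiteType_algebraMap.mp h1

section chart

variable {X : Scheme.{0}} {k : ℕ} {A : Fin k → CommRingCat.{0}} (φ : ∀ i, Spec (A i) ⟶ X)

/-- the closed subset of the chart number `i` outside the earlier charts -/
def Cl (i : Fin k) : Set (Spec (A i)) := {y | ∀ j < i, φ i y ∉ Set.range (φ j)}

/-- its ideal -/
noncomputable def JJ (i : Fin k) : Ideal (A i) :=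
  PrimeSpectrum.vanishingIdeal (show Set (PrimeSpectrum (A i)) from Cl φ i)

/-- the coordinate ring of the piece number `i` -/
abbrev BB (i : Fin k) : Type := (A i) ⧸ JJ φ i

/-- the point of the chart attached to a maximal ideal of the piece -/
noncomputable def pt (i : Fin k) (m : MaximalSpectrum (BB φ i)) : Spec (A i) :=
  (⟨m.asIdeal.comap (Ideal.Quotient.mk (JJ φ i)), by
    have := m.isMaximal
    exact (Ideal.comap_isMaximal_of_surjective _ Ideal.Quotient.mk_surjective).isPrime⟩ :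
      PrimeSpectrum (A i))

lemma pt_max (i : Fin k) (m : MaximalSpectrum (BB φ i)) : (pt φ i m).asIdeal.IsMaximal := by
  have := m.isMaximal
  exact Ideal.comap_isMaximal_of_surjective _ Ideal.Quotient.mk_surjective

lemma JJ_le_pt (i : Fin k) (m : MaximalSpectrum (BB φ i)) : JJ φ i ≤ (pt φ i m).asIdeal := by
  intro a ha
  change Ideal.Quotient.mk (JJ φ i) a ∈ m.asIdeal
  rw [Ideal.Quotient.eq_zero_iff_mem.mpr ha]
  exact Ideal.zero_mem _

variable [∀ i, IsOpenImmersion (φ i)]

lemma isClosed_Cl (i : Fin k) : IsClosed (Cl φ i) := by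
  have : Cl φ i = ⋂ j : {j // j < i}, (φ i) ⁻¹' (Set.range (φ j.1))ᶜ := by
    ext y
    simp [Cl]
  rw [this]
  exact isClosed_iInter fun j =>
    ((φ j.1).isOpenEmbedding.isOpen_range.isClosed_compl).preimage (φ i).continuous

lemma mem_Cl_iff (i : Fin k) (y : Spec (A i)) : y ∈ Cl φ i ↔ JJ φ i ≤ y.asIdeal := by
  have h1 : PrimeSpectrum.zeroLocus ((JJ φ i : Ideal (A i)) : Set (A i)) =
      (show Set (PrimeSpectrum (A i)) from Cl φ i) := by
    unfold JJ
    rw [PrimeSpectrum.zeroLocus_vanishingIdeal_eq_closure]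
    exact (isClosed_Cl φ i).closure_eq
  have h2 : y ∈ Cl φ i ↔ (show PrimeSpectrum (A i) from y) ∈
      PrimeSpectrum.zeroLocus ((JJ φ i : Ideal (A i)) : Set (A i)) := by
    rw [h1]; rfl
  rw [h2, PrimeSpectrum.mem_zeroLocus]
  rfl

lemma pt_mem (i : Fin k) (m : MaximalSpectrum (BB φ i)) : pt φ i m ∈ Cl φ i :=
  (mem_Cl_iff φ i _).mpr (JJ_le_pt φ i m)

/-- the point of `X` attached to a maximal ideal of a piece -/
noncomputable def ptX [JacobsonSpace X] (z : Σ i, MaximalSpectrum (BB φ i)) :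
    {x : X // IsClosed ({x} : Set X)} :=
  ⟨φ z.1 (pt φ z.1 z.2), by
    have h1 : pt φ z.1 z.2 ∈ closedPoints (Spec (A z.1)) := by
      change IsClosed ({pt φ z.1 z.2} : Set (Spec (A z.1)))
      exact (PrimeSpectrum.isClosed_singleton_iff_isMaximal _).mpr (pt_max φ z.1 z.2)
    rw [← (φ z.1).isOpenEmbedding.preimage_closedPoints] at h1
    exact h1⟩

theorem ptX_bijective [JacobsonSpace X] (hcov : ∀ x : X, ∃ i, x ∈ Set.range (φ i)) :
    Function.Bijective (ptX φ) := by
  classical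
  constructor
  · rintro ⟨i, m⟩ ⟨i', m'⟩ h
    have h0 : φ i (pt φ i m) = φ i' (pt φ i' m') := congrArg Subtype.val h
    have h1 : i = i' := by
      rcases lt_trichotomy i i' with h2 | h2 | h2
      · exact absurd ⟨_, h0⟩ (pt_mem φ i' m' i h2)
      · exact h2
      · exact absurd ⟨_, h0.symm⟩ (pt_mem φ i m i' h2)
    subst h1
    have h2 : pt φ i m = pt φ i m' := (φ i).isOpenEmbedding.injective h0
    have h3 : m.asIdeal.comap (Ideal.Quotient.mk (JJ φ i)) =
        m'.asIdeal.comap (Ideal.Quotient.mk (JJ φ i)) := congrArg PrimeSpectrum.asIdeal h2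
    have h4 : m.asIdeal = m'.asIdeal :=
      Ideal.comap_injective_of_surjective _ Ideal.Quotient.mk_surjective h3
    rw [MaximalSpectrum.ext h4]
  · rintro ⟨x, hx⟩
    obtain ⟨i, hi, hmin⟩ : ∃ i, x ∈ Set.range (φ i) ∧ ∀ j < i, x ∉ Set.range (φ j) := by
      obtain ⟨i₀, hi₀⟩ := hcov x
      have hne : (Finset.univ.filter fun i => x ∈ Set.range (φ i)).Nonempty :=
        ⟨i₀, by simpa using hi₀⟩
      refine ⟨(Finset.univ.filter fun i => x ∈ Set.range (φ i)).min' hne,
        (Finset.mem_filter.mp (Finset.min'_mem _ hne)).2, fun j hj hxj => ?_⟩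
      exact absurd (Finset.min'_le _ j (Finset.mem_filter.mpr ⟨Finset.mem_univ _, hxj⟩))
        (not_le.mpr hj)
    obtain ⟨y, rfl⟩ := hi
    have hyC : y ∈ Cl φ i := hmin
    have hyc : y ∈ closedPoints (Spec (A i)) := by
      rw [← (φ i).isOpenEmbedding.preimage_closedPoints]
      exact hx
    have hymax : y.asIdeal.IsMaximal := by
      have : IsClosed ({y} : Set (Spec (A i))) := hyc
      exact (PrimeSpectrum.isClosed_singleton_iff_isMaximal
        (show PrimeSpectrum (A i) from y)).mp this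
    have hJ := (mem_Cl_iff φ i y).mp hyC
    have hcm : (y.asIdeal.map (Ideal.Quotient.mk (JJ φ i))).comap
        (Ideal.Quotient.mk (JJ φ i)) = y.asIdeal := by
      rw [Ideal.comap_map_of_surjective _ Ideal.Quotient.mk_surjective, ← RingHom.ker_eq_comap_bot,
        Ideal.mk_ker, sup_eq_left]
      exact hJ
    have hmm : (y.asIdeal.map (Ideal.Quotient.mk (JJ φ i))).IsMaximal := by
      rcases Ideal.map_eq_top_or_isMaximal_of_surjective (Ideal.Quotient.mk (JJ φ i))
        Ideal.Quotient.mk_surjective hymax with h | h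
      · exfalso
        rw [h, Ideal.comap_top] at hcm
        exact hymax.ne_top hcm.symm
      · exact h
    refine ⟨⟨i, ⟨y.asIdeal.map (Ideal.Quotient.mk (JJ φ i)), hmm⟩⟩, ?_⟩
    apply Subtype.ext
    change φ i (pt φ i ⟨y.asIdeal.map (Ideal.Quotient.mk (JJ φ i)), hmm⟩) = φ i y
    congr 1
    exact PrimeSpectrum.ext hcm

theorem card_ptX [JacobsonSpace X] (z : Σ i, MaximalSpectrum (BB φ i)) :
    Nat.card (X.residueField (ptX φ z).1) = nm (BB φ z.1) z.2 := by
  obtain ⟨i, m⟩ := z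
  change Nat.card (X.residueField (φ i (pt φ i m))) = nm (BB φ i) m
  rw [card_residueField (φ i) _ (pt_max φ i m)]
  unfold nm
  have hle : (pt φ i m).asIdeal ≤ m.asIdeal.comap (Ideal.Quotient.mk (JJ φ i)) := le_rfl
  refine Nat.card_congr (Equiv.ofBijective
    (Ideal.quotientMap m.asIdeal (Ideal.Quotient.mk (JJ φ i)) hle) ⟨?_, ?_⟩)
  · exact Ideal.quotientMap_injective
  · exact Ideal.quotientMap_surjective Ideal.Quotient.mk_surjective

end chart

end W206.ZF
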