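import Mathlib
import Pool.Agent.W206.ZF.Rel
import Pool.Agent.W206.ZF.Sch

set_option autoImplicit false

/-! Assembly. -/

namespace W206.ZF

open AlgebraicGeometry CategoryTheory TopologicalSpace MvPolynomial

/-- the Euler product of a scheme -/
noncomputable def EP (X : Scheme.{0}) (s : ℂ) : ℂ :=
  ∏' x : {x : X // IsClosed ({x} : Set X)}, (1 - ((Nat.card (X.residueField x.1) : ℂ) ^ (-s)))⁻¹

theorem card_residueField_Spec (A : CommRingCat.{0}) (y : Spec A) (hy : y.asIdeal.IsMaximal) :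
    Nat.card ((Spec A).residueField y) = Nat.card (A ⧸ y.asIdeal) := by
  have e2 := (Scheme.Spec.residueFieldIso A y).commRingCatIsoToRingEquiv.toEquiv
  rw [Nat.card_congr e2]
  exact (Nat.card_congr (Equiv.ofBijective _
    (Ideal.bijective_algebraMap_quotient_residueField y.asIdeal))).symm

/-- the closed point attached to a maximal ideal -/
noncomputable def ptA (W : Type) [CommRing W] (m : MaximalSpectrum W) :
    {x : Spec (CommRingCat.of W) // IsClosed ({x} : Set (Spec (CommRingCat.of W)))} :=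
  ⟨(show PrimeSpectrum W from m.toPrimeSpectrum),
    (PrimeSpectrum.isClosed_singleton_iff_isMaximal _).mpr m.isMaximal⟩

theorem ptA_bijective (W : Type) [CommRing W] : Function.Bijective (ptA W) := by
  constructor
  · intro m m' h
    have h1 : (m.toPrimeSpectrum : PrimeSpectrum W) = m'.toPrimeSpectrum :=
      congrArg Subtype.val h
    exact MaximalSpectrum.ext (congrArg PrimeSpectrum.asIdeal h1)
  · rintro ⟨x, hx⟩
    have hmax : (show PrimeSpectrum W from x).asIdeal.IsMaximal :=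
      (PrimeSpectrum.isClosed_singleton_iff_isMaximal (show PrimeSpectrum W from x)).mp hx
    exact ⟨⟨(show PrimeSpectrum W from x).asIdeal, hmax⟩, rfl⟩

/-- affine schemes -/
theorem EP_Spec (W : Type) [CommRing W] (s : ℂ) : EP (Spec (CommRingCat.of W)) s = ZZ W s := by
  unfold EP ZZ
  rw [← (Equiv.ofBijective _ (ptA_bijective W)).tprod_eq]
  refine tprod_congr fun m => ?_
  have h1 : Nat.card ((Spec (CommRingCat.of W)).residueField (ptA W m).1) = nm W m :=
    card_residueField_Spec (CommRingCat.of W) (ptA W m).1 m.isMaximal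
  change (1 - ((Nat.card ((Spec (CommRingCat.of W)).residueField (ptA W m).1) : ℂ) ^ (-s)))⁻¹ = _
  rw [h1]

/-- a finite disjoint union -/
theorem tprod_sigma_eq {k : ℕ} (B : Fin k → Type) [∀ i, CommRing (B i)]
    [∀ i, Algebra.FiniteType ℤ (B i)] : ∃ σ : ℝ, ∀ s : ℂ, σ < s.re →
      ∏' z : (Σ i, MaximalSpectrum (B i)), (1 - (nm (B z.1) z.2 : ℂ) ^ (-s))⁻¹ =
        ∏ i, ZZ (B i) s := by
  choose σ hσ1 hσ2 using fun i => exists_summable (B i)
  obtain ⟨σ₀, hσ₀⟩ : ∃ σ₀ : ℝ, 1 ≤ σ₀ ∧ ∀ i, σ i ≤ σ₀ := by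
    refine ⟨1 + ∑ i, |σ i|, ?_, fun i => ?_⟩
    · have : 0 ≤ ∑ i, |σ i| := Finset.sum_nonneg fun i _ => abs_nonneg _
      linarith
    · have := Finset.single_le_sum (f := fun i => |σ i|) (fun i _ => abs_nonneg _)
        (Finset.mem_univ i)
      have h2 := le_abs_self (σ i)
      linarith
  refine ⟨σ₀, fun s hs => ?_⟩
  have hs1 : 1 < s.re := lt_of_le_of_lt hσ₀.1 hs
  have hi : ∀ i, Summable fun m : MaximalSpectrum (B i) => (nm (B i) m : ℝ) ^ (-s.re) :=
    fun i => hσ2 i s.re (lt_of_le_of_lt (hσ₀.2 i) hs)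
  let N : (Σ i, MaximalSpectrum (B i)) → ℕ := fun z => nm (B z.1) z.2
  have hN : ∀ z, 2 ≤ N z := fun z => two_le_nm (B z.1) z.2
  have hsum : Summable fun z => (N z : ℝ) ^ (-s.re) := by
    rw [summable_sigma_of_nonneg (fun z => by positivity)]
    exact ⟨hi, Summable.of_finite⟩
  have h1 := tprod_eq hN hs1 hsum
  have h2 : TT N s = ∑ i, TT (nm (B i)) s := by
    have hS := summable_TT hN hs1 hsum
    unfold TT
    rw [hS.tsum_prod, Summable.tsum_sigma hS.prod, tsum_fintype]
    refine Finset.sum_congr rfl fun i _ => ?_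
    rw [(summable_TT (two_le_nm (B i)) hs1 (hi i)).tsum_prod]
    rfl
  change ∏' z, (1 - (N z : ℂ) ^ (-s))⁻¹ = _
  rw [h1, h2, Complex.exp_sum]
  refine Finset.prod_congr rfl fun i _ => ?_
  rw [ZZ_eq (B i) hs1 (hi i)]

theorem ft_surj {A C : Type} [CommRing A] [CommRing C] [Algebra.FiniteType ℤ A] (f : A →+* C)
    (hf : Function.Surjective f) : Algebra.FiniteType ℤ C :=
  Algebra.FiniteType.of_surjective f.toIntAlgHom hf

/-- schemes of finite type over `ℤ` -/
theorem EP_eq_prod (X : Scheme.{0}) (f : X ⟶ Spec (CommRingCat.of ℤ))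
    (h1 : LocallyOfFiniteType f) (h2 : QuasiCompact f) :
    ∃ (k : ℕ) (B : Fin k → Type) (_ : ∀ i, CommRing (B i)),
      (∀ i, Algebra.FiniteType ℤ (B i)) ∧ ∃ σ : ℝ, ∀ s : ℂ, σ < s.re →
        EP X s = ∏ i, ZZ (B i) s := by
  have hc : CompactSpace X := QuasiCompact.compactSpace_of_compactSpace f
  have hj : JacobsonSpace (Spec (CommRingCat.of ℤ)) :=
    PrimeSpectrum.isJacobsonRing_iff_jacobsonSpace.mp jacobson_int
  have hJ : JacobsonSpace X := LocallyOfFiniteType.jacobsonSpace f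
  obtain ⟨k, A, φ, hφ, hcov⟩ := exists_charts X
  have h3 : ∀ i, Algebra.FiniteType ℤ (A i) := fun i => finiteType_chart f (φ i)
  have hft := fun i => ft_surj (Ideal.Quotient.mk (JJ φ i)) Ideal.Quotient.mk_surjective
  obtain ⟨σ, hσ⟩ := tprod_sigma_eq (fun i => BB φ i)
  refine ⟨k, fun i => BB φ i, fun i => inferInstance, hft, σ, fun s hs => ?_⟩
  rw [← hσ s hs]
  unfold EP
  rw [← (Equiv.ofBijective _ (ptX_bijective φ hcov)).tprod_eq]
  refine tprod_congr fun z => ?_
  change (1 - ((Nat.card (X.residueField (ptX φ z).1) : ℂ) ^ (-s)))⁻¹ = _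
  rw [card_ptX]

theorem meromorphicOn_prod {k : ℕ} (F : Fin k → ℂ → ℂ) (h : ∀ i, MeromorphicOn (F i) Set.univ) :
    MeromorphicOn (fun s => ∏ i, F i s) Set.univ := by
  intro s _
  have : ∀ t : Finset (Fin k), MeromorphicAt (fun s => ∏ i ∈ t, F i s) s := by
    classical
    intro t
    induction t using Finset.induction_on with
    | empty => simpa using MeromorphicAt.const (1 : ℂ) s
    | insert a t ha ih =>
      simp only [Finset.prod_insert ha]
      exact (h a s trivial).mul ih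
  exact this Finset.univ

/-- continuation for all schemes from continuation for all rings -/
theorem cont_scheme (H : ∀ (B : Type) [CommRing B] [Algebra.FiniteType ℤ B], Cont B)
    (X : Scheme.{0}) (f : X ⟶ Spec (CommRingCat.of ℤ))
    (h1 : LocallyOfFiniteType f) (h2 : QuasiCompact f) :
    ∃ F : ℂ → ℂ, MeromorphicOn F Set.univ ∧ ∃ σ : ℝ, ∀ s : ℂ, σ < s.re → F s = EP X s := by
  obtain ⟨k, B, hB, hft, σ, hσ⟩ := EP_eq_prod X f h1 h2
  choose F hF σ' hσ' using fun i => H (B i)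
  obtain ⟨σ₀, hσ₀⟩ : ∃ σ₀ : ℝ, σ ≤ σ₀ ∧ ∀ i, σ' i ≤ σ₀ := by
    refine ⟨|σ| + ∑ i, |σ' i|, ?_, fun i => ?_⟩
    · have : 0 ≤ ∑ i, |σ' i| := Finset.sum_nonneg fun i _ => abs_nonneg _
      have h2 := le_abs_self σ
      linarith
    · have := Finset.single_le_sum (f := fun i => |σ' i|) (fun i _ => abs_nonneg _)
        (Finset.mem_univ i)
      have h2 := le_abs_self (σ' i)
      have h3 := abs_nonneg σ
      linarith
  refine ⟨fun s => ∏ i, F i s, meromorphicOn_prod F hF, σ₀, fun s hs => ?_⟩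
  rw [hσ s (lt_of_le_of_lt hσ₀.1 hs)]
  exact Finset.prod_congr rfl fun i _ => hσ' i s (lt_of_le_of_lt (hσ₀.2 i) hs)

end W206.ZF
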