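import Mathlib
import Pool.Agent.W206.ZF.Final

set_option autoImplicit false

/-! Point counts. -/

namespace W206.ZF

open MvPolynomial Complex

theorem TT_count (W : Type) [CommRing W] [Algebra.FiniteType ℤ W] :
    ∃ σ : ℝ, ∀ s : ℂ, σ < s.re → ZZ W s = exp (∑' (p : Nat.Primes) (k : ℕ),
      (Nat.card (W →+* @GaloisField (p : ℕ) ⟨p.2⟩ (k + 1)) : ℂ) / ((k : ℂ) + 1) *
        (p : ℂ) ^ (-(((k : ℂ) + 1) * s))) := by
  obtain ⟨σ, hσ1, hσ⟩ := exists_summable W
  refine ⟨σ, fun s hs => ?_⟩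
  have hs1 : 1 < s.re := lt_of_le_of_lt hσ1 hs
  have h1 := hasSum_bb (two_le_nm W) hs1 (hσ s.re hs)
  rw [ZZ_eq W hs1 (hσ s.re hs)]
  congr 1
  set g : ℕ → ℂ := fun q => bb (nm W) q * (q : ℂ) ^ (-s) with hg
  have h2 : ∑' q : {n : ℕ // IsPrimePow n}, g q = ∑' q, g q := by
    apply tsum_subtype_eq_of_support_subset (s := {n : ℕ | IsPrimePow n})
    intro q hq
    by_contra hcon
    exact hq (by simp only [hg]; rw [bb_eq_zero W hcon, zero_mul])
  rw [← h1.tsum_eq, ← h2, ← Nat.Primes.prodNatEquiv.tsum_eq]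
  have h3 : Summable fun x : Nat.Primes × ℕ => g (Nat.Primes.prodNatEquiv x) := by
    exact h1.summable.comp_injective
      (Subtype.val_injective.comp Nat.Primes.prodNatEquiv.injective)
  rw [h3.tsum_prod]
  refine tsum_congr fun p => tsum_congr fun k => ?_
  have hp := p.2
  have hfact : Fact (p : ℕ).Prime := ⟨p.2⟩
  have hpk : ((Nat.Primes.prodNatEquiv (p, k) : {n : ℕ // IsPrimePow n}) : ℕ) =
      (p : ℕ) ^ (k + 1) := rfl
  have hKc : Nat.card (GaloisField p (k + 1)) = (p : ℕ) ^ (k + 1) :=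
    GaloisField.card p (k + 1) (Nat.succ_ne_zero k)
  have : Finite (GaloisField p (k + 1)) := Nat.finite_of_card_ne_zero (by
    rw [hKc]; exact (pow_pos hp.pos _).ne')
  simp only [hg, hpk]
  rw [bb_eq W hKc (Nat.succ_ne_zero k)]
  have e1 : (((p : ℕ) ^ (k + 1) : ℕ) : ℂ) ^ (-s) = (p : ℂ) ^ (-(((k : ℂ) + 1) * s)) := by
    rw [Nat.cast_pow, ← Complex.natCast_cpow_natCast_mul]
    congr 1
    push_cast; ring
  rw [e1]
  push_cast
  rfl

/-- the number of solutions of `∑ t_j q_j(x) = 1` -/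
theorem card_hom_gW {n r : ℕ} (q : Fin r → MvPolynomial (Fin n) ℤ) (K : Type) [Field K] :
    Nat.card ((MvPolynomial (Fin n ⊕ Fin r) ℤ ⧸ Ideal.span {gW q}) →+* K) =
      Nat.card {z : (Fin n → K) × (Fin r → K) // ∑ j, z.2 j * aeval z.1 (q j) = 1} := by
  rw [card_hom_hyp]
  have hev : ∀ z : Fin n ⊕ Fin r → K, aeval z (gW q) = 0 ↔
      ∑ j, z (Sum.inr j) * aeval (fun i => z (Sum.inl i)) (q j) = 1 := by
    intro z
    unfold gW
    rw [map_sub, map_one, map_sum, sub_eq_zero]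
    have : ∀ j, aeval z (X (Sum.inr j) * rename Sum.inl (q j)) =
        z (Sum.inr j) * aeval (fun i => z (Sum.inl i)) (q j) := by
      intro j
      rw [map_mul, aeval_X, aeval_rename]
      rfl
    simp only [this]
  refine Nat.card_congr ⟨fun z => ⟨(fun i => z.1 (Sum.inl i), fun j => z.1 (Sum.inr j)),
    (hev z.1).mp z.2⟩, fun w => ⟨Sum.elim w.1.1 w.1.2, (hev _).mpr w.2⟩, ?_, ?_⟩
  · intro z
    apply Subtype.ext
    funext i
    rcases i with i | i <;> rfl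
  · rintro ⟨⟨x, t⟩, ht⟩
    rfl

end W206.ZF
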