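import Mathlib
import Pool.Agent.W206.ZF.Count

set_option autoImplicit false

/-! Finite products of rings. -/

namespace W206.ZF

open MvPolynomial Complex

theorem finiteType_pi {k : ℕ} (B : Fin k → Type) [∀ i, CommRing (B i)]
    [∀ i, Algebra.FiniteType ℤ (B i)] :
    @Algebra.FiniteType ℤ (∀ i, B i) _ _ (Ring.toIntAlgebra _) := by
  classical
  choose N f hf using fun i => Algebra.FiniteType.iff_quotient_mvPolynomial''.mp
    (inferInstance : Algebra.FiniteType ℤ (B i))
  let g : MvPolynomial ((Σ i, Fin (N i)) ⊕ Fin k) ℤ →+* (∀ i, B i) :=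
    eval₂Hom (Int.castRingHom _)
      (Sum.elim (fun x => Pi.single x.1 (f x.1 (X x.2))) (fun i => Pi.single i 1))
  refine finiteType_of_surj g ?_
  have hs : ∀ (i : Fin k) (p : MvPolynomial (Fin (N i)) ℤ),
      (Pi.single i (f i p) : ∀ i, B i) ∈ g.range := by
    intro i p
    have he : (Pi.single i 1 : ∀ i, B i) ∈ g.range :=
      ⟨X (Sum.inr i), by simp [g]⟩
    induction p using MvPolynomial.induction_on with
    | C a =>
      have h1 : (Pi.single i (f i (C a)) : ∀ i, B i) = a • Pi.single i 1 := by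
        rw [← Pi.single_smul]
        congr 1
        have : f i (C a) = algebraMap ℤ (B i) a := by
          rw [← MvPolynomial.algebraMap_eq]; exact (f i).commutes a
        rw [this]; simp
      rw [h1]
      exact g.range.zsmul_mem he a
    | add p q hp hq =>
      rw [map_add, Pi.single_add]
      exact g.range.add_mem hp hq
    | mul_X p a hp =>
      rw [map_mul, Pi.single_mul]
      exact g.range.mul_mem hp ⟨X (Sum.inl ⟨i, a⟩), by simp [g]⟩
  intro b
  have hb : b = ∑ i, Pi.single i (b i) := (Finset.univ_sum_single b).symm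
  have : b ∈ g.range := by
    rw [hb]
    refine g.range.sum_mem fun i _ => ?_
    obtain ⟨p, hp⟩ := hf i (b i)
    rw [← hp]
    exact hs i p
  exact this

theorem card_hom_pi {k : ℕ} (B : Fin k → Type) [∀ i, CommRing (B i)] (K : Type) [Field K]
    (hfin : ∀ i, Finite (B i →+* K)) :
    Nat.card ((∀ i, B i) →+* K) = ∑ i, Nat.card (B i →+* K) := by
  classical
  rw [← Nat.card_sigma]
  refine (Nat.card_congr (Equiv.ofBijective
    (fun z : (Σ i, (B i →+* K)) => z.2.comp (Pi.evalRingHom B z.1)) ⟨?_, ?_⟩)).symm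
  · rintro ⟨i, φ⟩ ⟨j, ψ⟩ h
    have h0 : φ.comp (Pi.evalRingHom B i) = ψ.comp (Pi.evalRingHom B j) := h
    have h1 : i = j := by
      by_contra hne
      have h2 := congrArg (fun g : (∀ i, B i) →+* K => g (Pi.single i 1)) h0
      simp only [RingHom.comp_apply, Pi.evalRingHom_apply, Pi.single_eq_same, map_one] at h2
      rw [Pi.single_eq_of_ne (fun h => hne h.symm), map_zero] at h2
      exact one_ne_zero h2
    subst h1
    have h3 : φ = ψ := by
      apply RingHom.ext
      intro b
      have h2 := congrArg (fun g : (∀ i, B i) →+* K => g (Pi.single i b)) h0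
      simpa using h2
    rw [h3]
  · intro φ
    have hsum : ∑ i, φ (Pi.single i 1) = 1 := by
      rw [← map_sum]
      have : (∑ i, Pi.single i 1 : ∀ i, B i) = 1 := Finset.univ_sum_single 1
      rw [this, map_one]
    obtain ⟨i, hi⟩ : ∃ i, φ (Pi.single i 1) ≠ 0 := by
      by_contra hcon
      push Not at hcon
      rw [Finset.sum_eq_zero (fun i _ => hcon i)] at hsum
      exact zero_ne_one hsum
    have hi1 : φ (Pi.single i 1) = 1 := by
      have h1 : φ (Pi.single i 1) * φ (Pi.single i 1) = φ (Pi.single i 1) := by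
        rw [← map_mul, ← Pi.single_mul, one_mul]
      exact mul_left_cancel₀ hi (by rw [h1, mul_one])
    -- the homomorphism of the factor
    have hmul : ∀ b : ∀ i, B i, φ b = φ (Pi.single i (b i)) := by
      intro b
      have h1 : (Pi.single i (b i) : ∀ i, B i) = b * Pi.single i 1 := by
        funext j
        by_cases h : j = i
        · subst h; simp
        · simp [Pi.single_eq_of_ne h]
      rw [h1, map_mul, hi1, mul_one]
    let ψ : B i →+* K :=
      { toFun := fun b => φ (Pi.single i b)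
        map_one' := hi1
        map_mul' := fun a b => by rw [Pi.single_mul, map_mul]
        map_zero' := by rw [Pi.single_zero, map_zero]
        map_add' := fun a b => by rw [Pi.single_add, map_add] }
    refine ⟨⟨i, ψ⟩, ?_⟩
    apply RingHom.ext
    intro b
    exact (hmul b).symm

/-- the zeta function of a finite product -/
theorem ZZ_pi {k : ℕ} (B : Fin k → Type) [∀ i, CommRing (B i)]
    [∀ i, Algebra.FiniteType ℤ (B i)] : ∃ σ : ℝ, ∀ s : ℂ, σ < s.re →
      ZZ (∀ i, B i) s = ∏ i, ZZ (B i) s := by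
  classical
  have hpi := finiteType_pi B
  choose σ hσ1 hσ2 using fun i => exists_summable (B i)
  obtain ⟨σP, hσP1, hσP⟩ := exists_summable (∀ i, B i)
  obtain ⟨σ₀, hσ₀⟩ : ∃ σ₀ : ℝ, σP ≤ σ₀ ∧ ∀ i, σ i ≤ σ₀ := by
    refine ⟨|σP| + ∑ i, |σ i|, ?_, fun i => ?_⟩
    · have : 0 ≤ ∑ i, |σ i| := Finset.sum_nonneg fun i _ => abs_nonneg _
      have h2 := le_abs_self σP
      linarith
    · have := Finset.single_le_sum (f := fun i => |σ i|) (fun i _ => abs_nonneg _)
        (Finset.mem_univ i)
      have h2 := le_abs_self (σ i)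
      have h3 := abs_nonneg σP
      linarith
  refine ⟨σ₀, fun s hs => ?_⟩
  have hs1 : 1 < s.re := by linarith [hσ₀.1]
  have hi : ∀ i, Summable fun m : MaximalSpectrum (B i) => (nm (B i) m : ℝ) ^ (-s.re) :=
    fun i => hσ2 i s.re (lt_of_le_of_lt (hσ₀.2 i) hs)
  have hP := hσP s.re (lt_of_le_of_lt hσ₀.1 hs)
  have h1 := hasSum_bb (two_le_nm (∀ i, B i)) hs1 hP
  have h2 : HasSum (fun q : ℕ => ∑ i, bb (nm (B i)) q * (q : ℂ) ^ (-s))
      (∑ i, TT (nm (B i)) s) :=
    hasSum_sum fun i _ => hasSum_bb (two_le_nm (B i)) hs1 (hi i)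
  have h3 : ∀ q : ℕ, bb (nm (∀ i, B i)) q * (q : ℂ) ^ (-s) =
      ∑ i, bb (nm (B i)) q * (q : ℂ) ^ (-s) := by
    intro q
    rw [← Finset.sum_mul]
    congr 1
    by_cases hq : IsPrimePow q
    · obtain ⟨p, k, hp, hk, rfl⟩ := hq
      have hp' : p.Prime := hp.nat_prime
      have : Fact p.Prime := ⟨hp'⟩
      have hk' : k ≠ 0 := hk.ne'
      have hKc : Nat.card (GaloisField p k) = p ^ k := GaloisField.card p k hk'
      have : Finite (GaloisField p k) := Nat.finite_of_card_ne_zero (by
        rw [hKc]; exact (pow_pos hp'.pos k).ne')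
      rw [bb_eq (∀ i, B i) hKc hk', card_hom_pi B (GaloisField p k) (fun i => by
        obtain ⟨n, hn⟩ := exists_bound (B i)
        exact (hn (GaloisField p k)).1)]
      rw [Nat.cast_sum, Finset.sum_div]
      exact Finset.sum_congr rfl fun i _ => (bb_eq (B i) hKc hk').symm
    · rw [bb_eq_zero (∀ i, B i) hq]
      exact (Finset.sum_eq_zero fun i _ => bb_eq_zero (B i) hq).symm
  have h4 : TT (nm (∀ i, B i)) s = ∑ i, TT (nm (B i)) s := by
    rw [funext h3] at h1
    exact h1.unique h2
  rw [ZZ_eq (∀ i, B i) hs1 hP, h4, Complex.exp_sum]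
  exact Finset.prod_congr rfl fun i _ => (ZZ_eq (B i) hs1 (hi i)).symm

end W206.ZF
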